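import Mathlib

/-!
# Module RT10/Approx: weak approximation at the places infinity and 2, and a 2-adic square root

`weak_approx`: take a rational `c'` with `‖c' - c‖ < δ` in `ℚ_[2]` (rationals are dense, e.g. `Padic.rat_dense`),
`N` with `2^(-N) < δ`, and `q = c' + 2^N * (n / 3^k)` with integers `k` (large: `2^N / 3^k < ε`) and `n` (nearest integer);
`‖3‖ = 1` and `‖n‖ ≤ 1` in `ℚ_[2]`, ultrametric inequality.

`exists_sqrt`: an element `d` of `ℚ_[2]` with `‖d - 1‖ ≤ 1/16` has a square root (`hensels_lemma` for `X² - d` over `ℤ_[2]`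
at `1`: `‖1 - d‖ < ‖2‖² = 1/4`).
-/

set_option autoImplicit false

namespace Pool.Agent.RT10

theorem weak_approx (r : ℝ) (c : ℚ_[2]) (ε δ : ℝ) (hε : 0 < ε) (hδ : 0 < δ) :
    ∃ q : ℚ, |(q : ℝ) - r| < ε ∧ ‖(q : ℚ_[2]) - c‖ < δ := by
  obtain ⟨c', hc'⟩ := Padic.rat_dense 2 c hδ
  obtain ⟨N, hN⟩ := exists_pow_lt_of_lt_one hδ (show (1 / 2 : ℝ) < 1 by norm_num)
  have h2N : (0 : ℝ) < 2 ^ N := by positivity
  obtain ⟨k, hk⟩ := exists_pow_lt_of_lt_one (div_pos hε h2N) (show (1 / 3 : ℝ) < 1 by norm_num)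
  have h3k : (0 : ℝ) < 3 ^ k := by positivity
  have hk2 : (2 : ℝ) ^ N / 3 ^ k < ε := by
    rw [one_div, inv_pow, lt_div_iff₀ h2N, mul_comm] at hk
    exact hk
  have hround := abs_sub_round ((r - c') * 3 ^ k / 2 ^ N)
  refine ⟨c' + 2 ^ N * (round ((r - c') * 3 ^ k / 2 ^ N)) / 3 ^ k, ?_, ?_⟩
  · generalize round ((r - c') * 3 ^ k / 2 ^ N) = m at hround
    push_cast
    have e : (c' : ℝ) + 2 ^ N * (m : ℝ) / 3 ^ k - r =
        -((2 ^ N / 3 ^ k) * ((r - c') * 3 ^ k / 2 ^ N - m)) := by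
      field_simp
      ring
    rw [e, abs_neg, abs_mul, abs_of_pos (div_pos h2N h3k)]
    have h1 : (2 : ℝ) ^ N / 3 ^ k * |(r - c') * 3 ^ k / 2 ^ N - m| ≤
        2 ^ N / 3 ^ k * (1 / 2) :=
      mul_le_mul_of_nonneg_left hround (div_pos h2N h3k).le
    have h2 : 0 < (2 : ℝ) ^ N / 3 ^ k := div_pos h2N h3k
    linarith
  · generalize round ((r - c') * 3 ^ k / 2 ^ N) = m
    push_cast
    have e : (c' : ℚ_[2]) + 2 ^ N * (m : ℚ_[2]) / 3 ^ k - c =
        (c' - c) + 2 ^ N * (m : ℚ_[2]) / 3 ^ k := by ring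
    rw [e]
    refine lt_of_le_of_lt (Padic.nonarchimedean _ _) (max_lt ?_ ?_)
    · rwa [norm_sub_rev]
    · have h2 : ‖(2 : ℚ_[2])‖ = 2⁻¹ := by
        have := Padic.norm_p (p := 2)
        exact_mod_cast this
      have h3 : ‖(3 : ℚ_[2])‖ = 1 := by
        have := (Padic.norm_natCast_eq_one_iff (p := 2) (n := 3)).2 (by norm_num)
        exact_mod_cast this
      rw [norm_div, norm_mul, norm_pow, norm_pow, h2, h3, one_pow, div_one]
      calc (2⁻¹ : ℝ) ^ N * ‖(m : ℚ_[2])‖ ≤ 2⁻¹ ^ N * 1 :=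
            mul_le_mul_of_nonneg_left (Padic.norm_int_le_one m) (by positivity)
        _ = (1 / 2) ^ N := by rw [mul_one, one_div]
        _ < δ := hN

theorem exists_sqrt (d : ℚ_[2]) (hd : ‖d - 1‖ ≤ 1 / 16) : ∃ s : ℚ_[2], s ^ 2 = d := by
  have h1 : ‖d‖ ≤ 1 := by
    have e : d = (d - 1) + 1 := by ring
    rw [e]
    refine (Padic.nonarchimedean _ _).trans (max_le (hd.trans (by norm_num)) ?_)
    rw [norm_one]
  let D : ℤ_[2] := ⟨d, h1⟩
  let F : Polynomial ℤ_[2] := Polynomial.X ^ 2 - Polynomial.C D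
  have hev : ∀ z : ℤ_[2], F.aeval z = z ^ 2 - D := by
    intro z
    simp [F]
  have hder : F.derivative.aeval (1 : ℤ_[2]) = 2 := by
    simp [F]
    norm_num
  have h2 : ‖(2 : ℤ_[2])‖ = 2⁻¹ := by
    have := PadicInt.norm_p (p := 2)
    exact_mod_cast this
  have hnorm : ‖F.aeval (1 : ℤ_[2])‖ < ‖F.derivative.aeval (1 : ℤ_[2])‖ ^ 2 := by
    rw [hev, hder, h2, one_pow]
    have h3 : ‖(1 : ℤ_[2]) - D‖ = ‖d - 1‖ := by
      rw [PadicInt.norm_def, norm_sub_rev d 1]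
      rfl
    rw [h3]
    refine lt_of_le_of_lt hd ?_
    norm_num
  obtain ⟨z, hz, -⟩ := hensels_lemma hnorm
  rw [hev, sub_eq_zero] at hz
  refine ⟨(z : ℚ_[2]), ?_⟩
  have h4 := congrArg (fun x : ℤ_[2] => (x : ℚ_[2])) hz
  simpa using h4

end Pool.Agent.RT10
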