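import Pool.Agent.RT10.Line
import Pool.Agent.RT10.Approx

/-!
# RT10/Angle: rational angles with 2-adic conditions; the third ray of a trihedral angle
-/

set_option autoImplicit false

namespace Pool.Agent.RT10

open Filter Topology

lemma two_norm : ‖(2 : ℚ_[2])‖ = 1 / 2 := by
  have := Padic.norm_p (p := 2)
  rw [one_div]
  exact_mod_cast this

lemma norm_add_of_lt {x y : ℚ_[2]} (h : ‖y‖ < ‖x‖) : ‖x + y‖ = ‖x‖ := by
  rw [Padic.add_eq_max_of_ne h.ne']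
  exact max_eq_left h.le

lemma norm_sub_of_lt {x y : ℚ_[2]} (h : ‖y‖ < ‖x‖) : ‖x - y‖ = ‖x‖ := by
  rw [sub_eq_add_neg]
  apply norm_add_of_lt
  rwa [norm_neg]

/-- rational angles close to a given one, with a prescribed 2-adic size of the cosine -/
theorem angle_approx {m : ℚ} {A : ℝ} (hm : ‖(m : ℚ_[2])‖ ≤ 1)
    (hA : ‖(1 - (m : ℚ_[2]) ^ 2)‖ = A) (hA' : 1 / 32 ≤ A)
    (hB : ‖(1 + (m : ℚ_[2]) ^ 2)‖ = 1 / 2) {C S : ℝ} (hCS : C ^ 2 + S ^ 2 = 1) (hS : 0 < S)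
    {ε : ℝ} (hε : 0 < ε) :
    ∃ c s : ℚ, c ^ 2 + s ^ 2 = 1 ∧ 0 < s ∧ |(c : ℝ) - C| < ε ∧ |(s : ℝ) - S| < ε ∧
      ‖(c : ℚ_[2])‖ = 2 * A := by
  have hC : 0 < 1 + C := by nlinarith
  have hT2 : 1 + (S / (1 + C)) ^ 2 = 2 / (1 + C) := by
    rw [div_pow]
    field_simp
    nlinarith
  have hT3 : 1 - (S / (1 + C)) ^ 2 = 2 * C / (1 + C) := by
    rw [div_pow]
    field_simp
    nlinarith
  have hc1 : ContinuousAt (fun t : ℝ => (1 - t ^ 2) / (1 + t ^ 2)) (S / (1 + C)) := by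
    apply ContinuousAt.div
    · fun_prop
    · fun_prop
    · rw [hT2]
      positivity
  have hc2 : ContinuousAt (fun t : ℝ => (2 * t) / (1 + t ^ 2)) (S / (1 + C)) := by
    apply ContinuousAt.div
    · fun_prop
    · fun_prop
    · rw [hT2]
      positivity
  have e1 : (1 - (S / (1 + C)) ^ 2) / (1 + (S / (1 + C)) ^ 2) = C := by
    rw [hT2, hT3]
    field_simp
  have e2 : (2 * (S / (1 + C))) / (1 + (S / (1 + C)) ^ 2) = S := by
    rw [hT2]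
    field_simp
  rw [Metric.continuousAt_iff] at hc1 hc2
  obtain ⟨δ1, hδ1, h1⟩ := hc1 ε hε
  obtain ⟨δ2, hδ2, h2⟩ := hc2 (min ε S) (lt_min hε hS)
  obtain ⟨t, ht1, ht2⟩ := weak_approx (S / (1 + C)) (m : ℚ_[2]) (min δ1 δ2) (1 / 16)
    (lt_min hδ1 hδ2) (by norm_num)
  have h1' := h1 (x := (t : ℝ)) (by rw [Real.dist_eq]; exact lt_of_lt_of_le ht1 (min_le_left _ _))
  have h2' := h2 (x := (t : ℝ)) (by rw [Real.dist_eq]; exact lt_of_lt_of_le ht1 (min_le_right _ _))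
  rw [Real.dist_eq, e1] at h1'
  rw [Real.dist_eq, e2] at h2'
  have ht : (1 : ℚ) + t ^ 2 ≠ 0 := by positivity
  have k0 : ‖((t : ℚ_[2]) - m) * (t + m)‖ < 1 / 32 := by
    have k1 : ‖((t : ℚ_[2]) + m)‖ ≤ 1 / 2 := by
      have k2 : (t : ℚ_[2]) + m = (t - m) + 2 * m := by ring
      rw [k2]
      refine (Padic.nonarchimedean _ _).trans (max_le ?_ ?_)
      · linarith
      · rw [norm_mul, two_norm]
        linarith
    rw [norm_mul]
    calc ‖(t : ℚ_[2]) - m‖ * ‖(t : ℚ_[2]) + m‖ ≤ ‖(t : ℚ_[2]) - m‖ * (1 / 2) :=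
          mul_le_mul_of_nonneg_left k1 (norm_nonneg _)
      _ < 1 / 16 * (1 / 2) := by linarith
      _ = 1 / 32 := by norm_num
  have k3 : ‖(1 - (t : ℚ_[2]) ^ 2)‖ = A := by
    have k4 : 1 - (t : ℚ_[2]) ^ 2 = (1 - (m : ℚ_[2]) ^ 2) - ((t : ℚ_[2]) - m) * (t + m) := by ring
    rw [k4, norm_sub_of_lt, hA]
    rw [hA]
    linarith
  have k5 : ‖(1 + (t : ℚ_[2]) ^ 2)‖ = 1 / 2 := by
    have k4 : 1 + (t : ℚ_[2]) ^ 2 = (1 + (m : ℚ_[2]) ^ 2) + ((t : ℚ_[2]) - m) * (t + m) := by ring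
    rw [k4, norm_add_of_lt, hB]
    rw [hB]
    linarith
  refine ⟨(1 - t ^ 2) / (1 + t ^ 2), (2 * t) / (1 + t ^ 2), ?_, ?_, ?_, ?_, ?_⟩
  · field_simp
    ring
  · have h3 : (0 : ℝ) < ((2 * t) / (1 + t ^ 2) : ℚ) := by
      push_cast
      have := lt_of_lt_of_le h2' (min_le_right _ _)
      have := (abs_lt.1 this).1
      linarith
    exact_mod_cast h3
  · push_cast
    exact h1'
  · push_cast
    exact lt_of_lt_of_le h2' (min_le_left _ _)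
  · push_cast
    rw [norm_div, k3, k5]
    ring

theorem angle_quarter {C S : ℝ} (hCS : C ^ 2 + S ^ 2 = 1) (hS : 0 < S) {ε : ℝ} (hε : 0 < ε) :
    ∃ c s : ℚ, c ^ 2 + s ^ 2 = 1 ∧ 0 < s ∧ |(c : ℝ) - C| < ε ∧ |(s : ℝ) - S| < ε ∧
      ‖(c : ℚ_[2])‖ = 1 / 4 := by
  have h5 : ‖(5 : ℚ_[2])‖ = 1 := by
    have := (Padic.norm_natCast_eq_one_iff (p := 2) (n := 5)).2 (by norm_num)
    exact_mod_cast this
  obtain ⟨c, s, h1, h2, h3, h4, h6⟩ := angle_approx (m := 3) (A := 1 / 8) (by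
      have := Padic.norm_int_le_one (p := 2) 3
      exact_mod_cast this) (by
      have e : (1 - ((3 : ℚ) : ℚ_[2]) ^ 2) = - (2 ^ 3) := by push_cast; norm_num
      rw [e, norm_neg, norm_pow, two_norm]
      norm_num) (by norm_num) (by
      have e : (1 + ((3 : ℚ) : ℚ_[2]) ^ 2) = 2 * 5 := by push_cast; norm_num
      rw [e, norm_mul, two_norm, h5]
      norm_num) hCS hS hε
  exact ⟨c, s, h1, h2, h3, h4, by rw [h6]; norm_num⟩

theorem angle_sixteenth {C S : ℝ} (hCS : C ^ 2 + S ^ 2 = 1) (hS : 0 < S) {ε : ℝ} (hε : 0 < ε) :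
    ∃ c s : ℚ, c ^ 2 + s ^ 2 = 1 ∧ 0 < s ∧ |(c : ℝ) - C| < ε ∧ |(s : ℝ) - S| < ε ∧
      ‖(c : ℚ_[2])‖ = 1 / 16 := by
  have h9 : ‖(9 : ℚ_[2])‖ = 1 := by
    have := (Padic.norm_natCast_eq_one_iff (p := 2) (n := 9)).2 (by norm_num)
    exact_mod_cast this
  have h145 : ‖(145 : ℚ_[2])‖ = 1 := by
    have := (Padic.norm_natCast_eq_one_iff (p := 2) (n := 145)).2 (by norm_num)
    exact_mod_cast this
  obtain ⟨c, s, h1, h2, h3, h4, h6⟩ := angle_approx (m := 17) (A := 1 / 32) (by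
      have := Padic.norm_int_le_one (p := 2) 17
      exact_mod_cast this) (by
      have e : (1 - ((17 : ℚ) : ℚ_[2]) ^ 2) = - (2 ^ 5 * 9) := by push_cast; norm_num
      rw [e, norm_neg, norm_mul, norm_pow, two_norm, h9]
      norm_num) (by norm_num) (by
      have e : (1 + ((17 : ℚ) : ℚ_[2]) ^ 2) = 2 * 145 := by push_cast; norm_num
      rw [e, norm_mul, two_norm, h145]
      norm_num) hCS hS hε
  exact ⟨c, s, h1, h2, h3, h4, by rw [h6]; norm_num⟩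

lemma norm_sin {c s : ℚ} (h : c ^ 2 + s ^ 2 = 1) (hc : ‖(c : ℚ_[2])‖ < 1) :
    ‖(s : ℚ_[2])‖ = 1 := by
  have h1 : (s : ℚ_[2]) ^ 2 = 1 - (c : ℚ_[2]) ^ 2 := by
    have : ((c ^ 2 + s ^ 2 : ℚ) : ℚ_[2]) = 1 := by rw [h]; norm_num
    push_cast at this
    linear_combination this
  have h2 : ‖(s : ℚ_[2])‖ ^ 2 = 1 := by
    rw [← norm_pow, h1, norm_sub_of_lt, norm_one]
    rw [norm_one, norm_pow]
    exact pow_lt_one₀ (norm_nonneg _) hc two_ne_zero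
  exact (pow_eq_one_iff_of_nonneg (norm_nonneg _) two_ne_zero).1 h2

/-- third ray: with a good angle `α` and a good dihedral angle `φ` fixed, the rational angles `β` for which
the third angle is rational are dense -/
theorem third_ray {ca sa cf sf : ℚ} (ha : ca ^ 2 + sa ^ 2 = 1) (hf : cf ^ 2 + sf ^ 2 = 1)
    (hsa : 0 < sa) (hsf : 0 < sf) (h2a : ‖(ca : ℚ_[2])‖ = 1 / 4) (h2f : ‖(cf : ℚ_[2])‖ = 1 / 16)
    {C S : ℝ} (hCS : C ^ 2 + S ^ 2 = 1) (hS : 0 < S) {ε : ℝ} (hε : 0 < ε) :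
    ∃ cb sb sg : ℚ, cb ^ 2 + sb ^ 2 = 1 ∧ 0 < sb ∧ |(cb : ℝ) - C| < ε ∧ |(sb : ℝ) - S| < ε ∧
      (ca * cb + sa * sb * cf) ^ 2 + sg ^ 2 = 1 := by
  have hca : ca ≠ 0 := by
    intro h
    rw [h] at h2a
    norm_num at h2a
  have hcf : cf ≠ 0 := by
    intro h
    rw [h] at h2f
    norm_num at h2f
  have nsa := norm_sin ha (by rw [h2a]; norm_num)
  have nsf := norm_sin hf (by rw [h2f]; norm_num)
  have hsf' : (0 : ℝ) < sf := by exact_mod_cast hsf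
  have hk : ‖((ca / sa * (cf / sf) : ℚ) : ℚ_[2])‖ = 1 / 64 := by
    push_cast
    rw [norm_mul, norm_div, norm_div, h2a, h2f, nsa, nsf]
    norm_num
  have hS1 : ‖((1 / sf : ℚ) : ℚ_[2])‖ = 1 := by
    push_cast
    rw [norm_div, nsf, norm_one, div_one]
  have hS2 : ‖((1 / sa : ℚ) : ℚ_[2])‖ = 1 := by
    push_cast
    rw [norm_div, nsa, norm_one, div_one]
  have hdiff : ‖(((1 / sf) ^ 2 - (1 / sa) ^ 2 : ℚ) : ℚ_[2])‖ = 1 / 16 := by
    have e : (1 / sf) ^ 2 - (1 / sa) ^ 2 = -((ca / sa) ^ 2 - (cf / sf) ^ 2) := by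
      field_simp
      linear_combination (sf ^ 2) * ha - (sa ^ 2) * hf
    rw [e]
    push_cast
    rw [norm_neg, norm_sub_of_lt, norm_pow, norm_div, h2a, nsa]
    · norm_num
    · rw [norm_pow, norm_pow, norm_div, norm_div, h2a, nsa, h2f, nsf]
      norm_num
  -- the target on the line
  have hSne : S ≠ 0 := hS.ne'
  have hv0 : (C / (S * sf)) ^ 2 + (1 / (sf : ℝ)) ^ 2 = (1 / (S * sf)) ^ 2 := by
    field_simp
    linear_combination hCS
  have hpos : ∀ x : ℝ, 0 < x ^ 2 + (1 / (sf : ℝ)) ^ 2 := fun x => by positivity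
  have hcont1 : ContinuousAt (fun x : ℝ => x / Real.sqrt (x ^ 2 + (1 / (sf : ℝ)) ^ 2))
      (C / (S * sf)) := by
    apply ContinuousAt.div
    · fun_prop
    · fun_prop
    · exact (Real.sqrt_pos.2 (hpos _)).ne'
  have hcont2 : ContinuousAt (fun x : ℝ => 1 / (sf * Real.sqrt (x ^ 2 + (1 / (sf : ℝ)) ^ 2)))
      (C / (S * sf)) := by
    apply ContinuousAt.div
    · fun_prop
    · fun_prop
    · have := Real.sqrt_pos.2 (hpos (C / (S * sf)))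
      positivity
  have hsq : Real.sqrt ((C / (S * sf)) ^ 2 + (1 / (sf : ℝ)) ^ 2) = 1 / (S * sf) := by
    rw [hv0, Real.sqrt_sq (by positivity)]
  have e1 : C / (S * sf) / Real.sqrt ((C / (S * sf)) ^ 2 + (1 / (sf : ℝ)) ^ 2) = C := by
    rw [hsq]
    field_simp
  have e2 : 1 / (sf * Real.sqrt ((C / (S * sf)) ^ 2 + (1 / (sf : ℝ)) ^ 2)) = S := by
    rw [hsq]
    field_simp
  rw [Metric.continuousAt_iff] at hcont1 hcont2
  obtain ⟨δ1, hδ1, g1⟩ := hcont1 ε hε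
  obtain ⟨δ2, hδ2, g2⟩ := hcont2 ε hε
  obtain ⟨x, v, w, hx, hv, hw⟩ := line_dense (S1 := 1 / sf) (S2 := 1 / sa)
    (κ := ca / sa * (cf / sf)) (by positivity) (by positivity)
    (by
      apply mul_ne_zero
      · exact div_ne_zero hca hsa.ne'
      · exact div_ne_zero hcf hsf.ne')
    (by
      rw [hk, hdiff]
      have : ‖(((ca / sa * (cf / sf)) ^ 2 + (1 / sf) ^ 2 + (1 / sa) ^ 2 : ℚ) : ℚ_[2])‖ ≤ 1 := by
        have a1 : ‖(((ca / sa * (cf / sf) : ℚ) : ℚ_[2]) ^ 2)‖ ≤ 1 := by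
          rw [norm_pow, hk]
          norm_num
        have a2 : ‖(((1 / sf : ℚ) : ℚ_[2]) ^ 2)‖ ≤ 1 := by
          rw [norm_pow, hS1]
          norm_num
        have a3 : ‖(((1 / sa : ℚ) : ℚ_[2]) ^ 2)‖ ≤ 1 := by
          rw [norm_pow, hS2]
          norm_num
        have a4 := (Padic.nonarchimedean (((ca / sa * (cf / sf) : ℚ) : ℚ_[2]) ^ 2)
          (((1 / sf : ℚ) : ℚ_[2]) ^ 2)).trans (max_le a1 a2)
        have a5 := (Padic.nonarchimedean (((ca / sa * (cf / sf) : ℚ) : ℚ_[2]) ^ 2 +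
          (((1 / sf : ℚ) : ℚ_[2]) ^ 2)) (((1 / sa : ℚ) : ℚ_[2]) ^ 2)).trans (max_le a4 a3)
        have e : (((ca / sa * (cf / sf)) ^ 2 + (1 / sf) ^ 2 + (1 / sa) ^ 2 : ℚ) : ℚ_[2]) =
            ((ca / sa * (cf / sf) : ℚ) : ℚ_[2]) ^ 2 + (((1 / sf : ℚ) : ℚ_[2]) ^ 2) +
            (((1 / sa : ℚ) : ℚ_[2]) ^ 2) := by
          push_cast
          ring
        rw [e]
        exact a5
      calc (1 / 64 : ℝ) ^ 2 * ‖(((ca / sa * (cf / sf)) ^ 2 + (1 / sf) ^ 2 + (1 / sa) ^ 2 : ℚ) :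
            ℚ_[2])‖ ≤ (1 / 64) ^ 2 * 1 := mul_le_mul_of_nonneg_left this (by norm_num)
        _ < 4 * (1 / 16) ^ 2 := by norm_num)
    (by
      rw [hk, hdiff]
      have : ‖((1 / sf * (1 / sa) : ℚ) : ℚ_[2])‖ = 1 := by
        rw [Rat.cast_mul, norm_mul, hS1, hS2, one_mul]
      rw [this]
      norm_num)
    (C / (S * sf)) (min δ1 δ2) (lt_min hδ1 hδ2)
  have g1' := g1 (x := (x : ℝ)) (by rw [Real.dist_eq]; exact lt_of_lt_of_le hx (min_le_left _ _))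
  have g2' := g2 (x := (x : ℝ)) (by rw [Real.dist_eq]; exact lt_of_lt_of_le hx (min_le_right _ _))
  rw [Real.dist_eq, e1] at g1'
  rw [Real.dist_eq, e2] at g2'
  have hv2 : 0 < v ^ 2 := by
    rw [← hv]
    positivity
  have hvne : v ≠ 0 := by
    intro h
    rw [h] at hv2
    norm_num at hv2
  have hvabs : 0 < |v| := abs_pos.2 hvne
  have hsqrt : Real.sqrt ((x : ℝ) ^ 2 + (1 / (sf : ℝ)) ^ 2) = ((|v| : ℚ) : ℝ) := by
    have h1 : (x : ℝ) ^ 2 + (1 / (sf : ℝ)) ^ 2 = ((|v| : ℚ) : ℝ) ^ 2 := by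
      have h2 : ((x ^ 2 + (1 / sf) ^ 2 : ℚ) : ℝ) = ((v ^ 2 : ℚ) : ℝ) := by rw [hv]
      push_cast at h2 ⊢
      rw [sq_abs]
      exact h2
    rw [h1, Real.sqrt_sq (by positivity)]
  rw [hsqrt] at g1' g2'
  have hv' : |v| ^ 2 = x ^ 2 + (1 / sf) ^ 2 := by rw [sq_abs, hv]
  refine ⟨x / |v|, 1 / (sf * |v|), sa * w / |v|, ?_, by positivity, ?_, ?_, ?_⟩
  · have : (x / |v|) ^ 2 + (1 / (sf * |v|)) ^ 2 = (x ^ 2 + (1 / sf) ^ 2) / |v| ^ 2 := by
      field_simp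
    rw [this, ← hv', div_self (by positivity)]
  · push_cast
    push_cast at g1'
    exact g1'
  · push_cast
    push_cast at g2'
    exact g2'
  · have e3 : (ca * (x / |v|) + sa * (1 / (sf * |v|)) * cf) ^ 2 + (sa * w / |v|) ^ 2 =
        ((ca * x + sa * (cf / sf)) ^ 2 + sa ^ 2 * w ^ 2) / |v| ^ 2 := by
      field_simp
    rw [e3, div_eq_one_iff_eq (by positivity), hv', ← hw]
    have e4 : (1 / sf) ^ 2 = 1 + (cf / sf) ^ 2 := by
      field_simp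
      linear_combination -hf
    have e5 : sa ^ 2 * ((x - ca / sa * (cf / sf)) ^ 2 + (1 / sa) ^ 2) =
        (sa * x - ca * (cf / sf)) ^ 2 + 1 := by
      field_simp
    rw [e4, e5]
    linear_combination (x ^ 2 + (cf / sf) ^ 2) * ha

end Pool.Agent.RT10
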