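import Mathlib

/-!
# RT10/Curve: rational points of `Y² = X³ + a X² + b X`

Closure of the set of rational points under negation, chords and doubling (no group law is used), and a
2-adic criterion for infinitely many rational points.
-/

set_option autoImplicit false

namespace Pool.Agent.RT10

/-- `(x, y)` is a rational point of `Y² = X³ + a X² + b X`. -/
def OnW (a b x y : ℚ) : Prop := y ^ 2 = x ^ 3 + a * x ^ 2 + b * x

theorem onW_neg {a b x y : ℚ} (h : OnW a b x y) : OnW a b x (-y) := by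
  unfold OnW at *
  rw [neg_sq]
  exact h

theorem onW_chord {a b x1 y1 x2 y2 l x3 : ℚ} (h1 : OnW a b x1 y1) (h2 : OnW a b x2 y2)
    (hx : x1 ≠ x2) (hl : l = (y2 - y1) / (x2 - x1)) (hx3 : x3 = l ^ 2 - a - x1 - x2) :
    OnW a b x3 (-(y1 + l * (x3 - x1))) := by
  unfold OnW at *
  have hne : x2 - x1 ≠ 0 := sub_ne_zero.mpr hx.symm
  have hl' : y2 = y1 + l * (x2 - x1) := by
    rw [hl, div_mul_cancel₀ _ hne]
    ring
  -- the cubic in x on the line has roots x1, x2, x3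
  have hdiff : (x2 - x1) * (2 * l * y1 + l ^ 2 * (x2 - x1) -
      (x1 ^ 2 + x1 * x2 + x2 ^ 2 + a * (x1 + x2) + b)) = 0 := by
    have e : y2 ^ 2 - y1 ^ 2 = x2 ^ 3 + a * x2 ^ 2 + b * x2 - (x1 ^ 3 + a * x1 ^ 2 + b * x1) := by
      rw [h1, h2]
    rw [hl'] at e
    linear_combination e
  have h3 : 2 * l * y1 + l ^ 2 * (x2 - x1) -
      (x1 ^ 2 + x1 * x2 + x2 ^ 2 + a * (x1 + x2) + b) = 0 := by
    rcases mul_eq_zero.mp hdiff with h | h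
    · exact absurd h hne
    · exact h
  rw [neg_sq]
  subst hx3
  linear_combination h1 + (l ^ 2 - a - x1 - x2 - x1) * h3

theorem onW_dbl {a b x y : ℚ} (h : OnW a b x y) (hy : y ≠ 0) :
    ∃ y' : ℚ, OnW a b (((x ^ 2 - b) / (2 * y)) ^ 2) y' := by
  unfold OnW at *
  obtain ⟨l, hl⟩ : ∃ l : ℚ, l = (3 * x ^ 2 + 2 * a * x + b) / (2 * y) := ⟨_, rfl⟩
  have hl' : 2 * y * l = 3 * x ^ 2 + 2 * a * x + b := by
    rw [hl]
    field_simp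
  have hx3 : ((x ^ 2 - b) / (2 * y)) ^ 2 = l ^ 2 - a - 2 * x := by
    rw [div_pow, div_eq_iff (by positivity)]
    have e : (l ^ 2 - a - 2 * x) * (2 * y) ^ 2 = (2 * y * l) ^ 2 - 4 * (a + 2 * x) * y ^ 2 := by ring
    rw [e, hl', h]
    ring
  refine ⟨-(y + l * (((x ^ 2 - b) / (2 * y)) ^ 2 - x)), ?_⟩
  rw [hx3, neg_sq]
  linear_combination h + (l ^ 2 - a - 2 * x - x) * hl'

/-- 2-adically close to the point at infinity -/
def Near (a b x : ℚ) : Prop := ‖(a : ℚ_[2])‖ < ‖(x : ℚ_[2])‖ ∧ ‖(b : ℚ_[2])‖ < ‖(x : ℚ_[2])‖ ^ 2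

theorem near_step {a b x y : ℚ} (h : OnW a b x y) (hN : Near a b x) :
    ∃ x' y' : ℚ, OnW a b x' y' ∧ Near a b x' ∧ ‖(x : ℚ_[2])‖ < ‖(x' : ℚ_[2])‖ := by
  obtain ⟨hN1, hN2⟩ := hN
  have hx0 : 0 < ‖(x : ℚ_[2])‖ := lt_of_le_of_lt (norm_nonneg _) hN1
  have hx : (x : ℚ_[2]) ≠ 0 := norm_pos_iff.mp hx0
  have hW : (y : ℚ_[2]) ^ 2 = (x : ℚ_[2]) ^ 3 + (a * x ^ 2 + b * x) := by
    have := h
    unfold OnW at this
    have h2 : ((y ^ 2 : ℚ) : ℚ_[2]) = ((x ^ 3 + a * x ^ 2 + b * x : ℚ) : ℚ_[2]) := by rw [this]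
    push_cast at h2
    rw [h2]
    ring
  have hlt : ‖(a * x ^ 2 + b * x : ℚ_[2])‖ < ‖(x : ℚ_[2]) ^ 3‖ := by
    refine lt_of_le_of_lt (Padic.nonarchimedean _ _) (max_lt ?_ ?_)
    · rw [norm_mul, norm_pow, norm_pow]
      calc ‖(a : ℚ_[2])‖ * ‖(x : ℚ_[2])‖ ^ 2 < ‖(x : ℚ_[2])‖ * ‖(x : ℚ_[2])‖ ^ 2 :=
            mul_lt_mul_of_pos_right hN1 (by positivity)
        _ = ‖(x : ℚ_[2])‖ ^ 3 := by ring
    · rw [norm_mul, norm_pow]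
      calc ‖(b : ℚ_[2])‖ * ‖(x : ℚ_[2])‖ < ‖(x : ℚ_[2])‖ ^ 2 * ‖(x : ℚ_[2])‖ :=
            mul_lt_mul_of_pos_right hN2 hx0
        _ = ‖(x : ℚ_[2])‖ ^ 3 := by ring
  have hy2 : ‖(y : ℚ_[2])‖ ^ 2 = ‖(x : ℚ_[2])‖ ^ 3 := by
    rw [← norm_pow, hW, ← norm_pow]
    rw [Padic.add_eq_max_of_ne hlt.ne']
    exact max_eq_left hlt.le
  have hy0 : (y : ℚ_[2]) ≠ 0 := by
    intro h0
    rw [h0, norm_zero] at hy2
    have : 0 < ‖(x : ℚ_[2])‖ ^ 3 := by positivity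
    rw [← hy2] at this
    norm_num at this
  have hyq : y ≠ 0 := by
    intro h0
    apply hy0
    rw [h0]
    norm_num
  obtain ⟨y', hy'⟩ := onW_dbl h hyq
  have hb : ‖((x : ℚ_[2]) ^ 2 - b)‖ = ‖(x : ℚ_[2])‖ ^ 2 := by
    rw [sub_eq_add_neg, Padic.add_eq_max_of_ne, norm_pow, norm_neg]
    · exact max_eq_left hN2.le
    · rw [norm_pow, norm_neg]
      exact hN2.ne'
  have h2 : ‖(2 : ℚ_[2])‖ = 2⁻¹ := by
    have := Padic.norm_p (p := 2)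
    exact_mod_cast this
  have hnorm : ‖(((((x ^ 2 - b) / (2 * y)) ^ 2 : ℚ)) : ℚ_[2])‖ = 4 * ‖(x : ℚ_[2])‖ := by
    push_cast
    rw [norm_pow, norm_div, norm_mul, hb, h2, div_pow, mul_pow, hy2]
    field_simp
    ring
  have hgt : ‖(x : ℚ_[2])‖ < ‖(((((x ^ 2 - b) / (2 * y)) ^ 2 : ℚ)) : ℚ_[2])‖ := by
    rw [hnorm]
    linarith
  refine ⟨_, y', hy', ⟨hN1.trans hgt, hN2.trans ?_⟩, hgt⟩
  exact pow_lt_pow_left₀ hgt (norm_nonneg _) (by norm_num)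

theorem inf_of_near {a b : ℚ} (h : ∃ x y : ℚ, OnW a b x y ∧ Near a b x) :
    {p : ℚ × ℚ | OnW a b p.1 p.2}.Infinite := by
  intro hfin
  have hfin' : (Prod.fst '' {p : ℚ × ℚ | OnW a b p.1 p.2 ∧ Near a b p.1}).Finite :=
    (hfin.subset fun p hp => hp.1).image _
  have hne : (Prod.fst '' {p : ℚ × ℚ | OnW a b p.1 p.2 ∧ Near a b p.1}).Nonempty := by
    obtain ⟨x, y, h1, h2⟩ := h
    exact ⟨x, ⟨(x, y), ⟨h1, h2⟩, rfl⟩⟩
  obtain ⟨x, ⟨⟨x', y⟩, ⟨h1, h2⟩, h3⟩, hmax⟩ :=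
    hfin'.exists_maximalFor (fun x : ℚ => ‖(x : ℚ_[2])‖) _ hne
  simp only at h1 h2 h3
  subst h3
  obtain ⟨x2, y2, h4, h5, h6⟩ := near_step h1 h2
  have := hmax ⟨(x2, y2), ⟨h4, h5⟩, rfl⟩ h6.le
  exact absurd h6 (not_lt.mpr this)

end Pool.Agent.RT10
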