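import Pool.Agent.RT10.Unb

/-!
# Module RT10/Dense: rational points are dense on the branch `x > 0, y > 0`

Let `f(x) = x³ + a x² + b x` (increasing for `x > 0`).  Given `0 < x1 < x2`, let `(X0, Y0)` be a rational point with
`X0 > x2` (`unbounded`), `Y0 > 0` (`onW_neg`; `f(X0) > 0`).  Put `m = √f(x1)`, `K = Y0 = √f(X0)`.
Let `(xQ, yQ)` be a rational point with `yQ > 0` and `xQ` very large (`unbounded`).  For a rational point `R = (x, y)` with
`x1 ≤ x ≤ X0`, `y > 0` (so `m ≤ y ≤ K`) the chord through `R` and `Q` has slope `l = (yQ - y) / (xQ - x)` and meets the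
curve in a third point; its negative... precisely (`onW_chord` with `(x1,y1) = R`, `(x2,y2) = Q`, followed by nothing):
the new point is `(x', y')`, `x' = l² - a - x - xQ`, `y' = l (x - x') - y`.  Exact formulas (polynomial identities
modulo the two curve equations):
* `(x' - x) (xQ - x)² = - 2 y yQ + (3 x² + 2 a x + b) xQ + y² - 2 x³ - a x²`;
* `y' l = y l - F`, `F = x² + x x' + x'² + a (x + x') + b` (if `x' ≠ x`; it follows from `y'² - y² = (x' - x) F`).
As `yQ² = f(xQ) ≥ xQ³`, for `xQ ≥ N²` one has `yQ ≥ N xQ`; and `yQ² ≤ (1 + a + b) xQ³` for `xQ ≥ 1`, so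
`yQ / xQ²` is as small as we want.  Hence for `xQ` large (depending on `x1, x2, X0, Y0, a, b` only):
* `x - x' ≥ m yQ / xQ² =: c > 0` (`c` depends on `Q` but not on `R`), and `x - x' < x2 - x1`;
* `l ≥ N - 1` is large, so `y' ≥ y - F / l > 0` provided `x' > 0` (`F ≤ 3 X0² + 2 a X0 + b`).
If there is no rational point with `x1 < x < x2`, `y > 0`, then from `(X0, Y0)` we get, by induction on `n`, rational points
with `y > 0` and `x2 ≤ x ≤ X0 - n c` (since `x' > x - (x2 - x1) ≥ x1`), a contradiction for large `n`.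
-/

set_option autoImplicit false

namespace Pool.Agent.RT10

private theorem dense_fmono {a b x z : ℝ} (ha : 0 < a) (hb : 0 < b) (hx : 0 < x) (hxz : x ≤ z) :
    x ^ 3 + a * x ^ 2 + b * x ≤ z ^ 3 + a * z ^ 2 + b * z := by
  have h2 : x ^ 2 ≤ z ^ 2 := pow_le_pow_left₀ hx.le hxz 2
  have h3 : x ^ 3 ≤ z ^ 3 := pow_le_pow_left₀ hx.le hxz 3
  nlinarith [mul_le_mul_of_nonneg_left h2 ha.le, mul_le_mul_of_nonneg_left hxz hb.le]

private theorem dense_step {a b x1 x2 X0 : ℝ} (ha : 0 < a) (hb : 0 < b) (h1 : 0 < x1)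
    (h2 : x1 < x2) (h3 : x2 < X0) :
    ∃ M : ℝ, ∀ xQ yQ : ℝ, M < xQ → 0 < yQ → yQ ^ 2 = xQ ^ 3 + a * xQ ^ 2 + b * xQ →
      ∃ c : ℝ, 0 < c ∧ ∀ x y l x' : ℝ, x2 ≤ x → x ≤ X0 → 0 < y →
        y ^ 2 = x ^ 3 + a * x ^ 2 + b * x → l = (yQ - y) / (xQ - x) → x' = l ^ 2 - a - x - xQ →
        x < xQ ∧ c ≤ x - x' ∧ x - x' < x2 - x1 ∧ 0 < -(y + l * (x' - x)) := by
  have hX0 : 0 < X0 := by linarith
  have hf1 : 0 < x1 ^ 3 + a * x1 ^ 2 + b * x1 := by positivity
  obtain ⟨m, hm, hm2⟩ : ∃ m : ℝ, 0 < m ∧ m ^ 2 = x1 ^ 3 + a * x1 ^ 2 + b * x1 :=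
    ⟨Real.sqrt _, Real.sqrt_pos.mpr hf1, Real.sq_sqrt hf1.le⟩
  have hfX : 0 < X0 ^ 3 + a * X0 ^ 2 + b * X0 := by positivity
  obtain ⟨K, hK, hK2⟩ : ∃ K : ℝ, 0 < K ∧ K ^ 2 = X0 ^ 3 + a * X0 ^ 2 + b * X0 :=
    ⟨Real.sqrt _, Real.sqrt_pos.mpr hfX, Real.sq_sqrt hfX.le⟩
  obtain ⟨G, hG⟩ : ∃ G : ℝ, G = 3 * X0 ^ 2 + 2 * a * X0 + b := ⟨_, rfl⟩
  have hGpos : 0 < G := by rw [hG]; positivity
  obtain ⟨D, hD⟩ : ∃ D : ℝ, D = 2 * X0 ^ 3 + a * X0 ^ 2 := ⟨_, rfl⟩
  have hDpos : 0 < D := by rw [hD]; positivity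
  obtain ⟨d, hd⟩ : ∃ d : ℝ, d = x2 - x1 := ⟨_, rfl⟩
  have hdpos : 0 < d := by rw [hd]; linarith
  obtain ⟨N, hN⟩ : ∃ N : ℝ, N = (G + K ^ 2) / m + K + G / m + 1 := ⟨_, rfl⟩
  have hNpos : 0 < N := by rw [hN]; positivity
  have hN1 : G + K ^ 2 ≤ m * N := by
    have : m * N = (G + K ^ 2) + m * K + G + m := by
      rw [hN]
      field_simp
    rw [this]
    have := mul_pos hm hK
    linarith
  have hN2 : G < m * (N - K) := by
    have : m * (N - K) = (G + K ^ 2) + G + m := by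
      rw [hN]
      field_simp
      ring
    rw [this]
    have := pow_pos hK 2
    linarith
  obtain ⟨e, he⟩ : ∃ e : ℝ, e = d / (16 * (K + 1)) := ⟨_, rfl⟩
  have hepos : 0 < e := by rw [he]; positivity
  have he2 : 8 * K * e < d / 2 := by
    have : e * (16 * (K + 1)) = d := by
      rw [he]
      field_simp
    have h9 : e * (16 * (K + 1)) = 16 * K * e + 16 * e := by ring
    linarith
  refine ⟨N ^ 2 + 1 + 2 * X0 + (1 + a + b) / e ^ 2 + 8 * D / d, ?_⟩
  intro xQ yQ hxQ hyQ hQ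
  have p1 : 0 < (1 + a + b) / e ^ 2 := by positivity
  have p2 : 0 < 8 * D / d := by positivity
  have p3 : 0 < N ^ 2 := by positivity
  have q1 : 1 < xQ := by linarith
  have q2 : 2 * X0 < xQ := by linarith
  have q3 : N ^ 2 < xQ := by linarith
  have q4 : (1 + a + b) / e ^ 2 < xQ := by linarith
  have q5 : 8 * D / d < xQ := by linarith
  have hxQpos : 0 < xQ := by linarith
  have hyN : N * xQ ≤ yQ := by
    refine le_of_sq_le_sq ?_ hyQ.le
    rw [hQ]
    have : N ^ 2 * xQ ^ 2 ≤ xQ * xQ ^ 2 := mul_le_mul_of_nonneg_right q3.le (by positivity)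
    have p : 0 < a * xQ ^ 2 + b * xQ := by positivity
    linarith
  have hye : yQ ≤ e * xQ ^ 2 := by
    refine le_of_sq_le_sq ?_ (by positivity)
    rw [hQ]
    have h5 : 1 + a + b ≤ e ^ 2 * xQ := by
      rw [div_lt_iff₀ (by positivity)] at q4
      linarith
    have h6 : (1 + a + b) * xQ ^ 3 ≤ (e ^ 2 * xQ) * xQ ^ 3 :=
      mul_le_mul_of_nonneg_right h5 (by positivity)
    have h7 : xQ ^ 2 ≤ xQ ^ 3 := pow_le_pow_right₀ q1.le (by norm_num)
    have h8 : xQ ≤ xQ ^ 3 := le_self_pow₀ q1.le (by norm_num)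
    linarith [mul_le_mul_of_nonneg_left h7 ha.le, mul_le_mul_of_nonneg_left h8 hb.le]
  refine ⟨m * yQ / xQ ^ 2, by positivity, ?_⟩
  intro x y l x' hx hxX hy hW hl hx'
  have hx0 : 0 < x := by linarith
  have hlt : x < xQ := by linarith
  have hQx : 0 < xQ - x := by linarith
  have hym : m ≤ y := by
    refine le_of_sq_le_sq ?_ hy.le
    rw [hm2, hW]
    exact dense_fmono ha hb h1 (by linarith)
  have hyK : y ≤ K := by
    refine le_of_sq_le_sq ?_ hK.le
    rw [hK2, hW]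
    exact dense_fmono ha hb hx0 hxX
  have hlQ : l * (xQ - x) = yQ - y := by
    rw [hl, div_mul_cancel₀ _ hQx.ne']
  have hkey : (x - x') * (xQ - x) ^ 2 =
      2 * y * yQ - (3 * x ^ 2 + 2 * a * x + b) * xQ - y ^ 2 + (2 * x ^ 3 + a * x ^ 2) := by
    have e1 : (x - x') * (xQ - x) ^ 2 = (2 * x + a + xQ) * (xQ - x) ^ 2 - (l * (xQ - x)) ^ 2 := by
      rw [hx']
      ring
    rw [e1, hlQ]
    linear_combination -hQ
  have hx2 : x ^ 2 ≤ X0 ^ 2 := pow_le_pow_left₀ hx0.le hxX 2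
  have hx3 : x ^ 3 ≤ X0 ^ 3 := pow_le_pow_left₀ hx0.le hxX 3
  have hGx : 3 * x ^ 2 + 2 * a * x + b ≤ G := by
    rw [hG]
    linarith [mul_le_mul_of_nonneg_left hxX ha.le]
  have hDx : 2 * x ^ 3 + a * x ^ 2 ≤ D := by
    rw [hD]
    linarith [mul_le_mul_of_nonneg_left hx2 ha.le]
  have hDx0 : 0 < 2 * x ^ 3 + a * x ^ 2 := by positivity
  have hlow : m * yQ ≤ (x - x') * (xQ - x) ^ 2 := by
    rw [hkey]
    have g1 : m * yQ ≤ y * yQ := mul_le_mul_of_nonneg_right hym hyQ.le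
    have g2 : m * (N * xQ) ≤ m * yQ := mul_le_mul_of_nonneg_left hyN hm.le
    have g3 : (G + K ^ 2) * xQ ≤ m * N * xQ := mul_le_mul_of_nonneg_right hN1 hxQpos.le
    have g4 : (3 * x ^ 2 + 2 * a * x + b) * xQ ≤ G * xQ := mul_le_mul_of_nonneg_right hGx hxQpos.le
    have g5 : y ^ 2 ≤ K ^ 2 := pow_le_pow_left₀ hy.le hyK 2
    have g6 : K ^ 2 * 1 ≤ K ^ 2 * xQ := mul_le_mul_of_nonneg_left q1.le (by positivity)
    linarith
  have hpos : 0 < x - x' := by
    have : 0 < (x - x') * (xQ - x) ^ 2 := lt_of_lt_of_le (by positivity) hlow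
    exact (mul_pos_iff_of_pos_right (by positivity)).mp this
  have hc : m * yQ / xQ ^ 2 ≤ x - x' := by
    rw [div_le_iff₀ (by positivity)]
    refine hlow.trans ?_
    refine mul_le_mul_of_nonneg_left ?_ hpos.le
    exact pow_le_pow_left₀ hQx.le (by linarith) 2
  have hup : x - x' < d := by
    have hh : xQ / 2 ≤ xQ - x := by linarith
    have hh2 : (xQ / 2) ^ 2 ≤ (xQ - x) ^ 2 := pow_le_pow_left₀ (by positivity) hh 2
    have u1 : (x - x') * (xQ / 2) ^ 2 ≤ (x - x') * (xQ - x) ^ 2 :=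
      mul_le_mul_of_nonneg_left hh2 hpos.le
    have u2 : (x - x') * (xQ - x) ^ 2 ≤ 2 * K * (e * xQ ^ 2) + D := by
      rw [hkey]
      have v1 : y * yQ ≤ K * (e * xQ ^ 2) := mul_le_mul hyK hye hyQ.le hK.le
      have v2 : 0 < (3 * x ^ 2 + 2 * a * x + b) * xQ := by positivity
      have v3 : 0 < y ^ 2 := by positivity
      linarith
    have u3 : 8 * D < d * xQ ^ 2 := by
      rw [div_lt_iff₀ hdpos] at q5
      have h10 : xQ ≤ xQ ^ 2 := le_self_pow₀ q1.le (by norm_num)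
      have := mul_le_mul_of_nonneg_left h10 hdpos.le
      linarith
    have u4 : (x - x') * xQ ^ 2 < d * xQ ^ 2 := by
      have w1 : (x - x') * xQ ^ 2 = 4 * ((x - x') * (xQ / 2) ^ 2) := by ring
      rw [w1]
      have w2 : 8 * K * e * xQ ^ 2 < d / 2 * xQ ^ 2 :=
        mul_lt_mul_of_pos_right he2 (by positivity)
      linarith
    exact lt_of_mul_lt_mul_right u4 (by positivity)
  refine ⟨hlt, hc, hd ▸ hup, ?_⟩
  -- positivity of the new ordinate
  have hx'pos : 0 < x' := by linarith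
  have hlbig : N - K ≤ l := by
    rw [hl, le_div_iff₀ hQx]
    by_cases hNK : 0 ≤ N - K
    · have t1 : (N - K) * (xQ - x) ≤ (N - K) * xQ := mul_le_mul_of_nonneg_left (by linarith) hNK
      have t2 : K * 1 ≤ K * xQ := mul_le_mul_of_nonneg_left q1.le hK.le
      linarith
    · exfalso
      push Not at hNK
      have : m * (N - K) < 0 := mul_neg_of_pos_of_neg hm hNK
      linarith
  have hlpos : 0 < l := by
    have : 0 < m * (N - K) := by linarith
    have := (mul_pos_iff_of_pos_left hm).mp this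
    linarith
  have hy'l : -(y + l * (x' - x)) * l = y * l - (x ^ 2 + x * x' + x' ^ 2 + a * (x + x') + b) := by
    have e2 : yQ = y + l * (xQ - x) := by linarith
    have e3 : (xQ - x) * (2 * y * l + l ^ 2 * (xQ - x) -
        (x ^ 2 + x * xQ + xQ ^ 2 + a * (x + xQ) + b)) = 0 := by
      rw [e2] at hQ
      linear_combination hQ - hW
    have e4 : 2 * y * l + l ^ 2 * (xQ - x) - (x ^ 2 + x * xQ + xQ ^ 2 + a * (x + xQ) + b) = 0 := by
      rcases mul_eq_zero.mp e3 with h | h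
      · exact absurd h hQx.ne'
      · exact h
    linear_combination -e4 - (xQ - x') * hx'
  have hF : x ^ 2 + x * x' + x' ^ 2 + a * (x + x') + b ≤ G := by
    rw [hG]
    have f1 : x' ≤ X0 := by linarith
    have f2 : x * x' ≤ X0 * X0 := mul_le_mul hxX f1 hx'pos.le hX0.le
    have f3 : x' ^ 2 ≤ X0 ^ 2 := pow_le_pow_left₀ hx'pos.le f1 2
    linarith [mul_le_mul_of_nonneg_left (add_le_add hxX f1) ha.le]
  have hyl : G < y * l := by
    refine hN2.trans_le ?_
    exact mul_le_mul hym hlbig (by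
      have : 0 < m * (N - K) := by linarith
      exact ((mul_pos_iff_of_pos_left hm).mp this).le) hy.le
  have : 0 < -(y + l * (x' - x)) * l := by
    rw [hy'l]
    linarith
  exact (mul_pos_iff_of_pos_right hlpos).mp this

theorem dense_W {a b : ℚ} (ha : 0 < a) (hb : 0 < b) (hab : a ^ 2 ≠ 4 * b)
    (hinf : {p : ℚ × ℚ | OnW a b p.1 p.2}.Infinite) (x1 x2 : ℝ) (h1 : 0 < x1) (h2 : x1 < x2) :
    ∃ x y : ℚ, OnW a b x y ∧ 0 < y ∧ x1 < x ∧ x < x2 := by
  by_contra hno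
  push Not at hno
  have haR : (0 : ℝ) < a := by exact_mod_cast ha
  have hbR : (0 : ℝ) < b := by exact_mod_cast hb
  have castW : ∀ {x y : ℚ}, OnW a b x y →
      (y : ℝ) ^ 2 = (x : ℝ) ^ 3 + a * (x : ℝ) ^ 2 + b * (x : ℝ) := by
    intro x y h
    unfold OnW at h
    exact_mod_cast h
  have pos_of : ∀ {x y : ℚ}, OnW a b x y → (0 : ℝ) < x → ∃ y' : ℚ, OnW a b x y' ∧ 0 < y' := by
    intro x y h hx
    have hx' : 0 < x := by exact_mod_cast hx
    have hy : y ≠ 0 := by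
      intro h0
      unfold OnW at h
      rw [h0] at h
      have : 0 < x ^ 3 + a * x ^ 2 + b * x := by positivity
      rw [← h] at this
      norm_num at this
    rcases lt_or_gt_of_ne hy with h' | h'
    · exact ⟨-y, onW_neg h, by linarith⟩
    · exact ⟨y, h, h'⟩
  obtain ⟨X0, Y0, hW0, hX0⟩ := unbounded ha hb hab hinf x2
  obtain ⟨Y0, hW0, hY0⟩ := pos_of hW0 (by linarith)
  obtain ⟨M, hM⟩ := dense_step haR hbR h1 h2 hX0
  obtain ⟨xQ, yQ, hWQ, hxQ⟩ := unbounded ha hb hab hinf (max M x2)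
  obtain ⟨yQ, hWQ, hyQ⟩ := pos_of hWQ (by
    have := le_max_right M x2
    linarith)
  obtain ⟨c, hc, hstep⟩ := hM xQ yQ ((le_max_left M x2).trans_lt hxQ) (by exact_mod_cast hyQ)
    (castW hWQ)
  have key : ∀ n : ℕ, ∃ x y : ℚ, OnW a b x y ∧ 0 < y ∧ x2 ≤ x ∧ (x : ℝ) ≤ X0 - n * c := by
    intro n
    induction n with
    | zero => exact ⟨X0, Y0, hW0, hY0, hX0.le, by simp⟩
    | succ n ih =>
      obtain ⟨x, y, hxy, hy, hx, hxn⟩ := ih
      have hnc : (0 : ℝ) ≤ n * c := by positivity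
      obtain ⟨k1, k2, k3, k4⟩ := hstep x y ((yQ - y) / (xQ - x))
        (((yQ - y) / (xQ - x)) ^ 2 - a - x - xQ) hx (by linarith) (by exact_mod_cast hy)
        (castW hxy) rfl rfl
      have hne : x ≠ xQ := by
        intro h
        rw [h] at k1
        exact lt_irrefl _ k1
      have hnew := onW_chord (l := (yQ - y) / (xQ - x))
        (x3 := ((yQ - y) / (xQ - x)) ^ 2 - a - x - xQ) hxy hWQ hne rfl rfl
      have hynew : 0 < -(y + (yQ - y) / (xQ - x) * (((yQ - y) / (xQ - x)) ^ 2 - a - x - xQ - x)) := by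
        exact_mod_cast k4
      have hcast : (((((yQ - y) / (xQ - x)) ^ 2 - a - x - xQ : ℚ)) : ℝ) =
          (((yQ : ℝ) - y) / (xQ - x)) ^ 2 - a - x - xQ := by push_cast; ring
      refine ⟨_, _, hnew, hynew, ?_, ?_⟩
      · refine hno _ _ hnew hynew ?_
        rw [hcast]
        linarith
      · rw [hcast]
        push_cast
        linarith
  obtain ⟨n, hn⟩ := exists_nat_gt ((X0 - x2) / c)
  obtain ⟨x, y, -, -, hx, hxn⟩ := key n
  rw [div_lt_iff₀ hc] at hn
  linarith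

end Pool.Agent.RT10
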