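import Pool.Agent.RT10.Line
import Pool.Agent.RT10.Approx

/-!
# Module RT10/Edge: points on the three rays with rational distances

`p, q, r` are the distances of the points `B, C, D` from the vertex on the first, second and third ray.

1. Let `rho = r0/p0 > 0`, `W = √(1 + rho² - 2 rho cb)` (real), `θ* = (W - 1)/rho`.
   Let `d' = 1 + cf²/ca² - cf²`; `‖d' - 1‖ ≤ 1/16`, so `d' = σ²` in `ℚ_[2]` (`exists_sqrt`); `θ0 = sb σ - cg/ca` in `ℚ_[2]`.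
   General fact (any field): if `(1 + ρ θ)² = 1 + ρ² - 2 ρ c`, `ρ ≠ 0`, `c² ≠ 1` then `1 - θ² ≠ 0` and `ρ = 2 (c + θ)/(1 - θ²)`
   (`ρ (1 - θ²) = 2 (θ + c)`; if `θ² = 1` then `θ = -c`).  It applies to `(rho, θ*)` over `ℝ` and to
   `(ρ0, θ0)`, `ρ0 = ca/cg`, over `ℚ_[2]`: `(1 + ρ0 θ0)² = (ca sb σ/cg)²` and
   `cg² (1 + ρ0² - 2 ρ0 cb) = cg² + ca² - 2 ca cg cb = (cg - ca cb)² + ca² sb² = sb² (sa² cf² + ca²) = sb² ca² d'`.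
2. By continuity and `weak_approx` choose a rational `θ` real-close to `θ*` and 2-adically close to `θ0`, and put
   `ρ = 2 (cb + θ)/(1 - θ²)` (`1 - θ² ≠ 0`): `ρ` is close to `rho`, `ρ > 0`, and 2-adically close to `ρ0`; moreover
   `1 + ρ² - 2 ρ cb = (1 + ρ θ)²`.  With `p` rational close to `p0`, `r = ρ p`: `p² + r² - 2 p r cb = (p (1 + ρ θ))²`.
3. `S1 = p sa`, `S2 = r sg`, `κ = r cg - p ca`, `ξ = q - p ca`: `p² + q² - 2 p q ca = ξ² + S1²` and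
   `q² + r² - 2 q r cg = (ξ - κ)² + S2²`.  The inequalities `hI1`, `hI2` of `line_dense` are homogeneous in `p`; divided by
   `‖p‖⁴` they read `‖ρ cg - ca‖² ‖(ρ cg - ca)² + sa² + ρ² sg²‖ < 4 ‖sa² - ρ² sg²‖²` and
   `‖ρ cg - ca‖² ‖sa ρ sg‖ < 4 ‖sa² - ρ² sg²‖²`.  At `ρ = ρ0` the left sides vanish and `sa² - ρ0² sg² = (cg² - ca²)/cg² ≠ 0`,
   so they hold for `ρ` 2-adically close to `ρ0`.  `κ ≠ 0` also has to be arranged (`ρ cg ≠ ca`: one value of `ρ`, at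
   most two values of `θ` to avoid, e.g. by the real approximation).
4. `line_dense` with `ξ0 = q0 - p ca` gives `ξ`, and `q = ξ + p ca`.
-/

set_option autoImplicit false

namespace Pool.Agent.RT10

/-- The parametrisation of the conic `(1 + ρ θ)² = 1 + ρ² - 2 ρ c` by `θ`. -/
private theorem edge_param {K : Type*} [Field K] {ρ θ c : K}
    (h : (1 + ρ * θ) ^ 2 = 1 + ρ ^ 2 - 2 * ρ * c) (hρ : ρ ≠ 0) (hc : c ^ 2 ≠ 1) (h2 : (2 : K) ≠ 0) :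
    1 - θ ^ 2 ≠ 0 ∧ ρ = 2 * (c + θ) / (1 - θ ^ 2) := by
  have h1 : ρ * (1 - θ ^ 2) = 2 * (c + θ) := by
    have : ρ * (ρ * (1 - θ ^ 2) - 2 * (c + θ)) = 0 := by linear_combination -h
    rcases mul_eq_zero.1 this with h0 | h0
    · exact absurd h0 hρ
    · exact sub_eq_zero.1 h0
  have hne : 1 - θ ^ 2 ≠ 0 := by
    intro h0
    rw [h0, mul_zero] at h1
    have h3 : c + θ = 0 := by
      rcases mul_eq_zero.1 h1.symm with h4 | h4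
      · exact absurd h4 h2
      · exact h4
    apply hc
    have h5 : θ = -c := by linear_combination h3
    rw [h5] at h0
    linear_combination -h0
  exact ⟨hne, by rw [eq_div_iff hne, h1]⟩

/-- continuity of the parametrisation -/
private theorem edge_cont {K : Type*} [NormedField K] {θ c : K} (h : 1 - θ ^ 2 ≠ 0) :
    ContinuousAt (fun t : K => 2 * (c + t) / (1 - t ^ 2)) θ := by
  apply ContinuousAt.div
  · fun_prop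
  · fun_prop
  · exact h

private theorem edge_padic {ca sa cb sb cf cg sg : ℚ} (ha : ca ^ 2 + sa ^ 2 = 1)
    (hb : cb ^ 2 + sb ^ 2 = 1) (hg : cg ^ 2 + sg ^ 2 = 1) (hrel : cg = ca * cb + sa * sb * cf)
    (hsb : 0 < sb) (hca : ca ≠ 0) (hcg : cg ≠ 0)
    (hne : cg ^ 2 ≠ ca ^ 2) (h2a : ‖(ca : ℚ_[2])‖ = 1 / 4) (h2f : ‖(cf : ℚ_[2])‖ ≤ 1 / 16) :
    ∃ θ0 : ℚ_[2], ∃ δ : ℝ, 0 < δ ∧ ∀ t : ℚ, ‖(t : ℚ_[2]) - θ0‖ < δ →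
      ∀ ρ : ℚ, ρ = 2 * (cb + t) / (1 - t ^ 2) →
      ‖((ρ * cg - ca : ℚ) : ℚ_[2])‖ ^ 2 * ‖(((ρ * cg - ca) ^ 2 + sa ^ 2 + ρ ^ 2 * sg ^ 2 : ℚ) : ℚ_[2])‖ <
        4 * ‖((sa ^ 2 - ρ ^ 2 * sg ^ 2 : ℚ) : ℚ_[2])‖ ^ 2 ∧
      ‖((ρ * cg - ca : ℚ) : ℚ_[2])‖ ^ 2 * ‖((sa * ρ * sg : ℚ) : ℚ_[2])‖ <
        4 * ‖((sa ^ 2 - ρ ^ 2 * sg ^ 2 : ℚ) : ℚ_[2])‖ ^ 2 := by
  have hcaQ : (ca : ℚ_[2]) ≠ 0 := by exact_mod_cast hca
  have hcgQ : (cg : ℚ_[2]) ≠ 0 := by exact_mod_cast hcg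
  have haQ : (ca : ℚ_[2]) ^ 2 + (sa : ℚ_[2]) ^ 2 = 1 := by exact_mod_cast ha
  have hbQ : (cb : ℚ_[2]) ^ 2 + (sb : ℚ_[2]) ^ 2 = 1 := by exact_mod_cast hb
  have hgQ : (cg : ℚ_[2]) ^ 2 + (sg : ℚ_[2]) ^ 2 = 1 := by exact_mod_cast hg
  have hrQ : (cg : ℚ_[2]) = ca * cb + sa * sb * cf := by exact_mod_cast hrel
  have hneQ : (cg : ℚ_[2]) ^ 2 ≠ (ca : ℚ_[2]) ^ 2 := by exact_mod_cast hne
  have hsbQ : (sb : ℚ_[2]) ≠ 0 := by exact_mod_cast hsb.ne'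
  obtain ⟨σ, hσ⟩ := exists_sqrt (1 + (cf : ℚ_[2]) ^ 2 / ca ^ 2 - cf ^ 2) (by
    have e : (1 + (cf : ℚ_[2]) ^ 2 / ca ^ 2 - cf ^ 2) - 1 = cf ^ 2 / ca ^ 2 + -(cf ^ 2) := by ring
    rw [e]
    refine (Padic.nonarchimedean _ _).trans (max_le ?_ ?_)
    · rw [norm_div, norm_pow, norm_pow, h2a]
      have : ‖(cf : ℚ_[2])‖ ^ 2 ≤ (1 / 16) ^ 2 := pow_le_pow_left₀ (norm_nonneg _) h2f 2
      calc ‖(cf : ℚ_[2])‖ ^ 2 / (1 / 4) ^ 2 ≤ (1 / 16) ^ 2 / (1 / 4) ^ 2 := by gcongr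
        _ = 1 / 16 := by norm_num
    · rw [norm_neg, norm_pow]
      have : ‖(cf : ℚ_[2])‖ ^ 2 ≤ (1 / 16) ^ 2 := pow_le_pow_left₀ (norm_nonneg _) h2f 2
      exact this.trans (by norm_num))
  set ρ0 : ℚ_[2] := ca / cg with hρ0
  set θ0 : ℚ_[2] := sb * σ - cg / ca with hθ0
  have hρ0ne : ρ0 ≠ 0 := div_ne_zero hcaQ hcgQ
  have hcb1 : (cb : ℚ_[2]) ^ 2 ≠ 1 := by
    intro h0
    rw [h0] at hbQ
    apply hsbQ
    have : (sb : ℚ_[2]) ^ 2 = 0 := by linear_combination hbQ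
    exact pow_eq_zero_iff (two_ne_zero) |>.1 this
  have hkey : (1 + ρ0 * θ0) ^ 2 = 1 + ρ0 ^ 2 - 2 * ρ0 * cb := by
    have e1 : 1 + ρ0 * θ0 = ca / cg * sb * σ := by
      rw [hρ0, hθ0]
      field_simp
      ring
    have e2 : (ca : ℚ_[2]) ^ 2 * σ ^ 2 = ca ^ 2 + sa ^ 2 * cf ^ 2 := by
      rw [hσ]
      field_simp
      linear_combination (-(cf : ℚ_[2]) ^ 2) * haQ
    have e3 : (cg : ℚ_[2]) ^ 2 * (1 + ρ0 ^ 2 - 2 * ρ0 * cb) = sb ^ 2 * (ca ^ 2 + sa ^ 2 * cf ^ 2) := by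
      have e4 : (cg : ℚ_[2]) ^ 2 * (1 + ρ0 ^ 2 - 2 * ρ0 * cb) = cg ^ 2 + ca ^ 2 - 2 * ca * cg * cb := by
        rw [hρ0]
        field_simp
      rw [e4]
      linear_combination (cg - ca * cb + sa * sb * cf : ℚ_[2]) * hrQ - (ca : ℚ_[2]) ^ 2 * hbQ
    have e5 : (cg : ℚ_[2]) ^ 2 * (1 + ρ0 * θ0) ^ 2 = sb ^ 2 * (ca ^ 2 + sa ^ 2 * cf ^ 2) := by
      rw [e1, ← e2]
      field_simp
    have h6 : (cg : ℚ_[2]) ^ 2 ≠ 0 := pow_ne_zero 2 hcgQ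
    exact mul_left_cancel₀ h6 (e5.trans e3.symm)
  obtain ⟨hθne, hρF⟩ := edge_param hkey hρ0ne hcb1 two_ne_zero
  have hcont := edge_cont (c := (cb : ℚ_[2])) hθne
  -- the conditions as functions of ρ
  have hD : (sa : ℚ_[2]) ^ 2 - ρ0 ^ 2 * sg ^ 2 ≠ 0 := by
    intro h0
    apply hneQ
    have : (cg : ℚ_[2]) ^ 2 * ((sa : ℚ_[2]) ^ 2 - ρ0 ^ 2 * sg ^ 2) = cg ^ 2 - ca ^ 2 := by
      have e4 : (cg : ℚ_[2]) ^ 2 * ((sa : ℚ_[2]) ^ 2 - ρ0 ^ 2 * sg ^ 2) = cg ^ 2 * sa ^ 2 - ca ^ 2 * sg ^ 2 := by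
        rw [hρ0]
        field_simp
      rw [e4]
      linear_combination (cg : ℚ_[2]) ^ 2 * haQ - (ca : ℚ_[2]) ^ 2 * hgQ
    rw [h0, mul_zero] at this
    linear_combination -this
  have hκ0 : ρ0 * cg - ca = 0 := by
    rw [hρ0]
    field_simp
    ring
  have hpos : 0 < 4 * ‖(sa : ℚ_[2]) ^ 2 - ρ0 ^ 2 * sg ^ 2‖ ^ 2 := by
    have : 0 < ‖(sa : ℚ_[2]) ^ 2 - ρ0 ^ 2 * sg ^ 2‖ := norm_pos_iff.2 hD
    positivity
  have hE1 : ∀ᶠ ρ : ℚ_[2] in nhds ρ0, ‖ρ * cg - ca‖ ^ 2 * ‖(ρ * cg - ca) ^ 2 + sa ^ 2 + ρ ^ 2 * sg ^ 2‖ <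
      4 * ‖(sa : ℚ_[2]) ^ 2 - ρ ^ 2 * sg ^ 2‖ ^ 2 := by
    have hc1 : ContinuousAt (fun ρ : ℚ_[2] => ‖ρ * cg - ca‖ ^ 2 *
      ‖(ρ * cg - ca) ^ 2 + sa ^ 2 + ρ ^ 2 * sg ^ 2‖) ρ0 := by fun_prop
    have hc2 : ContinuousAt (fun ρ : ℚ_[2] => 4 * ‖(sa : ℚ_[2]) ^ 2 - ρ ^ 2 * sg ^ 2‖ ^ 2) ρ0 := by
      fun_prop
    refine hc1.eventually_lt hc2 ?_
    rw [hκ0]
    simpa using hpos
  have hE2 : ∀ᶠ ρ : ℚ_[2] in nhds ρ0, ‖ρ * cg - ca‖ ^ 2 * ‖(sa : ℚ_[2]) * ρ * sg‖ <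
      4 * ‖(sa : ℚ_[2]) ^ 2 - ρ ^ 2 * sg ^ 2‖ ^ 2 := by
    have hc1 : ContinuousAt (fun ρ : ℚ_[2] => ‖ρ * cg - ca‖ ^ 2 *
      ‖(sa : ℚ_[2]) * ρ * sg‖) ρ0 := by fun_prop
    have hc2 : ContinuousAt (fun ρ : ℚ_[2] => 4 * ‖(sa : ℚ_[2]) ^ 2 - ρ ^ 2 * sg ^ 2‖ ^ 2) ρ0 := by
      fun_prop
    refine hc1.eventually_lt hc2 ?_
    rw [hκ0]
    simpa using hpos
  have hE := hE1.and hE2
  rw [hρF] at hE
  have hE' := hcont.eventually hE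
  obtain ⟨δ, hδ, hball⟩ := Metric.eventually_nhds_iff.1 hE'
  refine ⟨θ0, δ, hδ, ?_⟩
  intro t ht ρ hρ
  have := hball (y := (t : ℚ_[2])) (by rw [dist_eq_norm]; exact ht)
  have hρc : (ρ : ℚ_[2]) = 2 * (cb + t) / (1 - t ^ 2) := by
    rw [hρ]
    push_cast
    rfl
  rw [← hρc] at this
  push_cast
  exact this

private theorem edges_aux {ca sa cb sb cf cg sg : ℚ} (ha : ca ^ 2 + sa ^ 2 = 1)
    (hb : cb ^ 2 + sb ^ 2 = 1)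
    (hg : cg ^ 2 + sg ^ 2 = 1) (hrel : cg = ca * cb + sa * sb * cf)
    (hsa : 0 < sa) (hsb : 0 < sb) (hsg : sg ≠ 0) (hca : ca ≠ 0) (hcg : cg ≠ 0)
    (hne : cg ^ 2 ≠ ca ^ 2) (h2a : ‖(ca : ℚ_[2])‖ = 1 / 4) (h2f : ‖(cf : ℚ_[2])‖ ≤ 1 / 16)
    (p0 q0 r0 ε : ℝ) (hp : 0 < p0) (hr : 0 < r0) (hε : 0 < ε) (hne2 : r0 / p0 * cg ≠ ca) :
    ∃ p q r u v w : ℚ, |(p : ℝ) - p0| < ε ∧ |(q : ℝ) - q0| < ε ∧ |(r : ℝ) - r0| < ε ∧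
      p ^ 2 + q ^ 2 - 2 * p * q * ca = u ^ 2 ∧ p ^ 2 + r ^ 2 - 2 * p * r * cb = v ^ 2 ∧
      q ^ 2 + r ^ 2 - 2 * q * r * cg = w ^ 2 := by
  obtain ⟨θ0, δ, hδ, hpad⟩ := edge_padic ha hb hg hrel hsb hca hcg hne h2a h2f
  -- the real side
  set rho : ℝ := r0 / p0 with hrho
  have hrhopos : 0 < rho := div_pos hr hp
  have hbR : (cb : ℝ) ^ 2 + (sb : ℝ) ^ 2 = 1 := by exact_mod_cast hb
  have hsbR : 0 < (sb : ℝ) := by exact_mod_cast hsb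
  have hWpos : 0 ≤ 1 + rho ^ 2 - 2 * rho * cb := by nlinarith [sq_nonneg (rho - cb), sq_nonneg (sb : ℝ)]
  set W : ℝ := Real.sqrt (1 + rho ^ 2 - 2 * rho * cb) with hW
  have hWsq : W ^ 2 = 1 + rho ^ 2 - 2 * rho * cb := Real.sq_sqrt hWpos
  set θs : ℝ := (W - 1) / rho with hθs
  have hkey : (1 + rho * θs) ^ 2 = 1 + rho ^ 2 - 2 * rho * cb := by
    rw [← hWsq, hθs]
    field_simp
    ring
  have hcb1 : (cb : ℝ) ^ 2 ≠ 1 := by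
    intro h0
    rw [h0] at hbR
    have : (sb : ℝ) ^ 2 = 0 := by linarith
    have : (sb : ℝ) = 0 := by simpa using this
    exact hsbR.ne' this
  obtain ⟨hθne, hρF⟩ := edge_param hkey hrhopos.ne' hcb1 two_ne_zero
  have hcont := edge_cont (c := (cb : ℝ)) hθne
  -- choice of p
  obtain ⟨p, hp1, hp2⟩ : ∃ p : ℚ, 0 < p ∧ (|(p : ℝ) - p0| < ε ∧ |rho * p - r0| < ε) := by
    have h1 : ∀ᶠ x : ℝ in nhds p0, 0 < x ∧ |x - p0| < ε ∧ |rho * x - r0| < ε := by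
      refine (eventually_gt_nhds hp).and (Filter.Eventually.and ?_ ?_)
      · have hc : ContinuousAt (fun x : ℝ => |x - p0|) p0 := by fun_prop
        exact hc.eventually_lt continuousAt_const (by simpa using hε)
      · have hc : ContinuousAt (fun x : ℝ => |rho * x - r0|) p0 := by fun_prop
        refine hc.eventually_lt continuousAt_const ?_
        have : rho * p0 - r0 = 0 := by
          rw [hrho]
          field_simp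
          ring
        rw [this]
        simpa using hε
    obtain ⟨η, hη, hball⟩ := Metric.eventually_nhds_iff.1 h1
    obtain ⟨p, hp1, hp2⟩ := exists_rat_btwn (show p0 < p0 + η by linarith)
    have := hball (y := (p : ℝ)) (by
      rw [Real.dist_eq, abs_lt]
      constructor <;> linarith)
    exact ⟨p, by exact_mod_cast this.1, this.2⟩
  have hpR : 0 < (p : ℝ) := by exact_mod_cast hp1
  have hreal : ∀ᶠ x : ℝ in nhds rho, 0 < x ∧ |x * p - r0| < ε ∧ x * cg ≠ ca := by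
    refine (eventually_gt_nhds hrhopos).and (Filter.Eventually.and ?_ ?_)
    · have hc : ContinuousAt (fun x : ℝ => |x * p - r0|) rho := by fun_prop
      exact hc.eventually_lt continuousAt_const hp2.2
    · have hc : ContinuousAt (fun x : ℝ => x * (cg : ℝ)) rho := by fun_prop
      exact hc.eventually_ne hne2
  rw [hρF] at hreal
  have hreal' := (hcont.eventually hreal).and (show ∀ᶠ t : ℝ in nhds θs, 1 - t ^ 2 ≠ 0 from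
    ContinuousAt.eventually_ne (by fun_prop) hθne)
  obtain ⟨η, hη, hball⟩ := Metric.eventually_nhds_iff.1 hreal'
  obtain ⟨t, ht1, ht2⟩ := weak_approx θs θ0 η δ hη hδ
  obtain ⟨⟨hx1, hx2, hx3⟩, hx4⟩ := hball (y := (t : ℝ)) (by rw [Real.dist_eq]; exact ht1)
  obtain ⟨ρ, hρ⟩ : ∃ ρ : ℚ, ρ = 2 * (cb + t) / (1 - t ^ 2) := ⟨_, rfl⟩
  obtain ⟨hI1, hI2⟩ := hpad t ht2 ρ hρ
  have hρR : (ρ : ℝ) = 2 * (cb + t) / (1 - t ^ 2) := by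
    rw [hρ]
    push_cast
    rfl
  rw [← hρR] at hx1 hx2 hx3
  have ht4 : (1 : ℚ) - t ^ 2 ≠ 0 := by exact_mod_cast hx4
  have hρpos : 0 < ρ := by exact_mod_cast hx1
  have hρne : ρ * cg ≠ ca := by exact_mod_cast hx3
  have hρt : ρ * (1 - t ^ 2) = 2 * (cb + t) := by
    rw [hρ, div_mul_cancel₀ _ ht4]
  have hpQ : 0 < ‖(p : ℚ_[2])‖ := norm_pos_iff.2 (by exact_mod_cast hp1.ne')
  -- apply line_dense
  obtain ⟨ξ, v', w', hξ, hv, hw⟩ := line_dense (S1 := p * sa) (S2 := p * (ρ * sg))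
    (κ := p * (ρ * cg - ca)) (mul_ne_zero hp1.ne' hsa.ne')
    (mul_ne_zero hp1.ne' (mul_ne_zero hρpos.ne' hsg))
    (mul_ne_zero hp1.ne' (sub_ne_zero.2 hρne))
    (by
      have e1 : ((p * (ρ * cg - ca)) ^ 2 + (p * sa) ^ 2 + (p * (ρ * sg)) ^ 2 : ℚ) =
        p ^ 2 * ((ρ * cg - ca) ^ 2 + sa ^ 2 + ρ ^ 2 * sg ^ 2) := by ring
      have e2 : ((p * sa) ^ 2 - (p * (ρ * sg)) ^ 2 : ℚ) = p ^ 2 * (sa ^ 2 - ρ ^ 2 * sg ^ 2) := by ring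
      rw [e1, e2, Rat.cast_mul, Rat.cast_mul, Rat.cast_mul, norm_mul, norm_mul, norm_mul,
        Rat.cast_pow, norm_pow]
      calc (‖(p : ℚ_[2])‖ * ‖((ρ * cg - ca : ℚ) : ℚ_[2])‖) ^ 2 * (‖(p : ℚ_[2])‖ ^ 2 *
            ‖(((ρ * cg - ca) ^ 2 + sa ^ 2 + ρ ^ 2 * sg ^ 2 : ℚ) : ℚ_[2])‖)
          = ‖(p : ℚ_[2])‖ ^ 4 * (‖((ρ * cg - ca : ℚ) : ℚ_[2])‖ ^ 2 *
            ‖(((ρ * cg - ca) ^ 2 + sa ^ 2 + ρ ^ 2 * sg ^ 2 : ℚ) : ℚ_[2])‖) := by ring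
        _ < ‖(p : ℚ_[2])‖ ^ 4 * (4 * ‖((sa ^ 2 - ρ ^ 2 * sg ^ 2 : ℚ) : ℚ_[2])‖ ^ 2) :=
            mul_lt_mul_of_pos_left hI1 (by positivity)
        _ = _ := by ring)
    (by
      have e1 : (p * sa * (p * (ρ * sg)) : ℚ) = p ^ 2 * (sa * ρ * sg) := by ring
      have e2 : ((p * sa) ^ 2 - (p * (ρ * sg)) ^ 2 : ℚ) = p ^ 2 * (sa ^ 2 - ρ ^ 2 * sg ^ 2) := by ring
      rw [e1, e2, Rat.cast_mul, Rat.cast_mul (p ^ 2), Rat.cast_mul (p ^ 2), norm_mul, norm_mul,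
        norm_mul, Rat.cast_pow, norm_pow]
      calc (‖(p : ℚ_[2])‖ * ‖((ρ * cg - ca : ℚ) : ℚ_[2])‖) ^ 2 * (‖(p : ℚ_[2])‖ ^ 2 *
            ‖((sa * ρ * sg : ℚ) : ℚ_[2])‖)
          = ‖(p : ℚ_[2])‖ ^ 4 * (‖((ρ * cg - ca : ℚ) : ℚ_[2])‖ ^ 2 *
            ‖((sa * ρ * sg : ℚ) : ℚ_[2])‖) := by ring
        _ < ‖(p : ℚ_[2])‖ ^ 4 * (4 * ‖((sa ^ 2 - ρ ^ 2 * sg ^ 2 : ℚ) : ℚ_[2])‖ ^ 2) :=
            mul_lt_mul_of_pos_left hI2 (by positivity)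
        _ = _ := by ring)
    (q0 - p * ca) ε hε
  refine ⟨p, ξ + p * ca, ρ * p, v', p * (1 + ρ * t), w', hp2.1, ?_, ?_, ?_, ?_, ?_⟩
  · push_cast
    have e : (ξ : ℝ) + p * ca - q0 = ξ - (q0 - p * ca) := by ring
    rw [e]
    exact hξ
  · push_cast
    exact hx2
  · rw [← hv]
    linear_combination (-p ^ 2) * ha
  · linear_combination (p ^ 2 * ρ) * hρt
  · rw [← hw]
    linear_combination (-(ρ ^ 2 * p ^ 2)) * hg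

theorem edges {ca sa cb sb cf sf cg sg : ℚ} (ha : ca ^ 2 + sa ^ 2 = 1) (hb : cb ^ 2 + sb ^ 2 = 1)
    (hf : cf ^ 2 + sf ^ 2 = 1) (hg : cg ^ 2 + sg ^ 2 = 1) (hrel : cg = ca * cb + sa * sb * cf)
    (hsa : 0 < sa) (hsb : 0 < sb) (hsg : sg ≠ 0) (hca : ca ≠ 0) (hcg : cg ≠ 0)
    (hne : cg ^ 2 ≠ ca ^ 2) (h2a : ‖(ca : ℚ_[2])‖ = 1 / 4) (h2f : ‖(cf : ℚ_[2])‖ ≤ 1 / 16)
    (p0 q0 r0 ε : ℝ) (hp : 0 < p0) (hr : 0 < r0) (hε : 0 < ε) :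
    ∃ p q r u v w : ℚ, |(p : ℝ) - p0| < ε ∧ |(q : ℝ) - q0| < ε ∧ |(r : ℝ) - r0| < ε ∧
      p ^ 2 + q ^ 2 - 2 * p * q * ca = u ^ 2 ∧ p ^ 2 + r ^ 2 - 2 * p * r * cb = v ^ 2 ∧
      q ^ 2 + r ^ 2 - 2 * q * r * cg = w ^ 2 := by
  by_cases h : r0 / p0 * cg = ca
  · -- move the target `r0`
    have hcgR : (cg : ℝ) ≠ 0 := by exact_mod_cast hcg
    obtain ⟨p, q, r, u, v, w, h1, h2, h3, h4, h5, h6⟩ := edges_aux ha hb hg hrel hsa hsb hsg hca hcg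
      hne h2a h2f p0 q0 (r0 + ε / 2) (ε / 2) hp (by linarith) (by linarith) (by
        intro h0
        have e : (r0 + ε / 2) / p0 * (cg : ℝ) = r0 / p0 * cg + ε / 2 / p0 * cg := by ring
        rw [e, h] at h0
        have h7 : ε / 2 / p0 * (cg : ℝ) = 0 := by linarith
        have h8 : ε / 2 / p0 ≠ 0 := by positivity
        exact (mul_ne_zero h8 hcgR) h7)
    refine ⟨p, q, r, u, v, w, by linarith, by linarith, ?_, h4, h5, h6⟩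
    rw [abs_lt] at h3 ⊢
    constructor <;> linarith [h3.1, h3.2]
  · exact edges_aux ha hb hg hrel hsa hsb hsg hca hcg hne h2a h2f p0 q0 r0 ε hp hr hε h

end Pool.Agent.RT10
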