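import Pool.Agent.RT10.Tri
import Pool.Agent.RT10.Edge
import Pool.Agent.RatTet.DisFinal

/-!
# RT10/Fin: tetrahedra with six rational edges, rational volume and three rational face areas are dense
-/

set_option autoImplicit false

namespace Pool.Agent.RT10

open Pool.Agent.RatTet Pool.Agent.RatTet.Dis

/-- coordinates of the vertices: `B` on the first axis, `C` in the plane of the first two axes -/
def V10 (p q r ca sa cb sb cf sf : ℚ) : Fin 4 → Fin 3 → ℚ :=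
  ![![0, 0, 0], ![p, 0, 0], ![q * ca, q * sa, 0], ![r * cb, r * (sb * cf), r * (sb * sf)]]

lemma mulclose {x X y Y δ K : ℝ} (hδ : δ ≤ 1) (hx : |x - X| ≤ δ) (hy : |y - Y| ≤ δ)
    (hX : |X| ≤ K) (hY : |Y| ≤ 1) : |x * y - X * Y| ≤ δ * (K + 2) := by
  have hδ0 : 0 ≤ δ := (abs_nonneg _).trans hx
  have hK0 : 0 ≤ K := (abs_nonneg _).trans hX
  have e : x * y - X * Y = x * (y - Y) + (x - X) * Y := by ring
  have hxK : |x| ≤ K + 1 := by
    have e2 : x = X + (x - X) := by ring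
    calc |x| = |X + (x - X)| := by rw [← e2]
      _ ≤ |X| + |x - X| := abs_add_le _ _
      _ ≤ K + 1 := by linarith
  rw [e]
  calc |x * (y - Y) + (x - X) * Y| ≤ |x * (y - Y)| + |(x - X) * Y| := abs_add_le _ _
    _ = |x| * |y - Y| + |x - X| * |Y| := by rw [abs_mul, abs_mul]
    _ ≤ (K + 1) * δ + δ * 1 := by
        apply add_le_add
        · exact mul_le_mul hxK hy (abs_nonneg _) (by linarith)
        · exact mul_le_mul hx hY (abs_nonneg _) hδ0
    _ = δ * (K + 2) := by ring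

lemma V10_dsq {p q r ca sa cb sb cf sf cg : ℚ} (ha : ca ^ 2 + sa ^ 2 = 1)
    (hb : cb ^ 2 + sb ^ 2 = 1) (hf : cf ^ 2 + sf ^ 2 = 1) (hrel : cg = ca * cb + sa * sb * cf) :
    dsq (V10 p q r ca sa cb sb cf sf) 0 1 = p ^ 2 ∧
    dsq (V10 p q r ca sa cb sb cf sf) 0 2 = q ^ 2 ∧
    dsq (V10 p q r ca sa cb sb cf sf) 0 3 = r ^ 2 ∧
    dsq (V10 p q r ca sa cb sb cf sf) 1 2 = p ^ 2 + q ^ 2 - 2 * p * q * ca ∧
    dsq (V10 p q r ca sa cb sb cf sf) 1 3 = p ^ 2 + r ^ 2 - 2 * p * r * cb ∧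
    dsq (V10 p q r ca sa cb sb cf sf) 2 3 = q ^ 2 + r ^ 2 - 2 * q * r * cg := by
  refine ⟨?_, ?_, ?_, ?_, ?_, ?_⟩
  · simp [dsq, V10]
  · simp only [dsq, V10, Matrix.cons_val_zero, Matrix.cons_val_one, Matrix.cons_val]
    linear_combination q ^ 2 * ha
  · simp only [dsq, V10, Matrix.cons_val_zero, Matrix.cons_val_one, Matrix.cons_val]
    linear_combination r ^ 2 * hb + r ^ 2 * sb ^ 2 * hf
  · simp only [dsq, V10, Matrix.cons_val_zero, Matrix.cons_val_one, Matrix.cons_val]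
    linear_combination q ^ 2 * ha
  · simp only [dsq, V10, Matrix.cons_val_zero, Matrix.cons_val_one, Matrix.cons_val]
    linear_combination r ^ 2 * hb + r ^ 2 * sb ^ 2 * hf
  · simp only [dsq, V10, Matrix.cons_val_zero, Matrix.cons_val_one, Matrix.cons_val]
    linear_combination q ^ 2 * ha + r ^ 2 * hb + r ^ 2 * sb ^ 2 * hf + 2 * q * r * hrel

lemma edges_of_lt (V : Fin 4 → Fin 3 → ℚ) (h : ∀ i j, i < j → IsSquare (dsq V i j)) :
    ∀ i j, IsSquare (dsq V i j) := by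
  intro i j
  rcases lt_trichotomy i j with h1 | h1 | h1
  · exact h i j h1
  · subst h1
    rw [dsq_self]
    exact ⟨0, by ring⟩
  · rw [dsq_comm]
    exact h j i h1

lemma faces_at_zero (V : Fin 4 → Fin 3 → ℚ)
    (h : ∀ j l, 0 < j → j < l → IsSquare (her (dsq V 0 j) (dsq V j l) (dsq V 0 l))) :
    ∀ j l, IsSquare (her (dsq V 0 j) (dsq V j l) (dsq V 0 l)) := by
  have key : ∀ j l, j < l → IsSquare (her (dsq V 0 j) (dsq V j l) (dsq V 0 l)) := by
    intro j l hjl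
    by_cases hj : j = 0
    · subst hj
      rw [dsq_self]
      exact ⟨0, by unfold her; ring⟩
    · exact h j l (Fin.pos_of_ne_zero hj) hjl
  intro j l
  rcases lt_trichotomy j l with h1 | h1 | h1
  · exact key j l h1
  · subst h1
    rw [dsq_self]
    exact ⟨0, by unfold her; ring⟩
  · have h2 := key l j h1
    rw [dsq_comm V l j] at h2
    have e : her (dsq V 0 j) (dsq V j l) (dsq V 0 l) = her (dsq V 0 l) (dsq V j l) (dsq V 0 j) := by
      unfold her
      ring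
    rw [e]
    exact h2

theorem approx10 {p : Fin 4 → E3} (hp : AffineIndependent ℝ p) :
    ∃ (O : E3) (e : Fin 3 → E3), Orthonormal ℝ e ∧ ∀ ε : ℝ, 0 < ε →
      ∃ V : Fin 4 → Fin 3 → ℚ, (∀ i j, IsSquare (dsq V i j)) ∧
      (∀ j l, IsSquare (her (dsq V 0 j) (dsq V j l) (dsq V 0 l))) ∧
      ∀ i, dist (p i) (pt O e V i) < ε := by
  obtain ⟨e, he, a, x, y, x3, y3, z3, ha, hy, hz, h0, h1, h2, h3⟩ := exists_frame_dis hp
  refine ⟨p 0, e, he, fun ε hε => ?_⟩
  -- polar coordinates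
  obtain ⟨q0, hq0⟩ : ∃ t : ℝ, t = Real.sqrt (x ^ 2 + y ^ 2) := ⟨_, rfl⟩
  have hq0pos : 0 < q0 := by rw [hq0]; exact Real.sqrt_pos.2 (by positivity)
  have hq0sq : q0 ^ 2 = x ^ 2 + y ^ 2 := by rw [hq0]; exact Real.sq_sqrt (by positivity)
  obtain ⟨s0, hs0⟩ : ∃ t : ℝ, t = Real.sqrt (y3 ^ 2 + z3 ^ 2) := ⟨_, rfl⟩
  have hs0pos : 0 < s0 := by rw [hs0]; exact Real.sqrt_pos.2 (by positivity)
  have hs0sq : s0 ^ 2 = y3 ^ 2 + z3 ^ 2 := by rw [hs0]; exact Real.sq_sqrt (by positivity)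
  obtain ⟨r0, hr0⟩ : ∃ t : ℝ, t = Real.sqrt (x3 ^ 2 + s0 ^ 2) := ⟨_, rfl⟩
  have hr0pos : 0 < r0 := by rw [hr0]; exact Real.sqrt_pos.2 (by positivity)
  have hr0sq : r0 ^ 2 = x3 ^ 2 + s0 ^ 2 := by rw [hr0]; exact Real.sq_sqrt (by positivity)
  have hA : (x / q0) ^ 2 + (y / q0) ^ 2 = 1 := by
    rw [div_pow, div_pow, ← add_div, ← hq0sq, div_self (by positivity)]
  have hB : (x3 / r0) ^ 2 + (s0 / r0) ^ 2 = 1 := by
    rw [div_pow, div_pow, ← add_div, ← hr0sq, div_self (by positivity)]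
  have hF : (y3 / s0) ^ 2 + (z3 / s0) ^ 2 = 1 := by
    rw [div_pow, div_pow, ← add_div, ← hs0sq, div_self (by positivity)]
  obtain ⟨δ, hδ⟩ : ∃ t : ℝ, t = min (1 / 3) (ε / (9 * (q0 + r0 + 3))) := ⟨_, rfl⟩
  have hδ0 : 0 < δ := by rw [hδ]; exact lt_min (by norm_num) (by positivity)
  have hδ1 : δ ≤ 1 / 3 := by rw [hδ]; exact min_le_left _ _
  have hδ2 : 3 * δ * (q0 + r0 + 3) ≤ ε / 3 := by
    have h4 : δ ≤ ε / (9 * (q0 + r0 + 3)) := by rw [hδ]; exact min_le_right _ _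
    rw [le_div_iff₀ (by positivity)] at h4
    linarith
  obtain ⟨ca, sa, cb, sb, cf, sf, cg, sg, t1, t2, t3, t4, t5, c1, c2, c3, c4, c5, c6,
    n1, n2, n3, n4, n5, n6, n7, n8, n9⟩ := trihedral hA (div_pos hy hq0pos) hB
      (div_pos hs0pos hr0pos) hF (div_pos hz hs0pos) δ hδ0
  obtain ⟨p', q', r', u, v, w, d1, d2, d3, d4, d5, d6⟩ := edges t1 t2 t3 t4 t5 n1 n2 n4 n5 n6 n7 n8
    n9 a q0 r0 δ ha hr0pos hδ0
  obtain ⟨k1, k2, k3, k4, k5, k6⟩ := V10_dsq (p := p') (q := q') (r := r') t1 t2 t3 t5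
  have one_le : ∀ s t : ℝ, s ^ 2 + t ^ 2 = 1 → |s| ≤ 1 := by
    intro s t h
    rw [abs_le_one_iff_mul_self_le_one]
    nlinarith [sq_nonneg t]
  have one_le' : ∀ s t : ℝ, s ^ 2 + t ^ 2 = 1 → |t| ≤ 1 := by
    intro s t h
    rw [abs_le_one_iff_mul_self_le_one]
    nlinarith [sq_nonneg s]
  have hq1 : |q0| ≤ q0 := by rw [abs_of_pos hq0pos]
  have hr1 : |r0| ≤ r0 := by rw [abs_of_pos hr0pos]
  have a1 : 0 < δ * q0 := mul_pos hδ0 hq0pos
  have a2 : 0 < δ * r0 := mul_pos hδ0 hr0pos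
  -- the five products
  have m1 : |(q' : ℝ) * ca - x| < ε / 3 := by
    have h := mulclose (by linarith) d2.le c1.le hq1 (one_le _ _ hA)
    rw [mul_div_cancel₀ _ hq0pos.ne'] at h
    linarith
  have m2 : |(q' : ℝ) * sa - y| < ε / 3 := by
    have h := mulclose (by linarith) d2.le c2.le hq1 (one_le' _ _ hA)
    rw [mul_div_cancel₀ _ hq0pos.ne'] at h
    linarith
  have m3 : |(r' : ℝ) * cb - x3| < ε / 3 := by
    have h := mulclose (by linarith) d3.le c3.le hr1 (one_le _ _ hB)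
    rw [mul_div_cancel₀ _ hr0pos.ne'] at h
    linarith
  have hprod : |s0 / r0| ≤ 1 := one_le' _ _ hB
  have m4 : |(r' : ℝ) * (sb * cf) - y3| < ε / 3 := by
    have h := mulclose (by linarith) c4.le c5.le hprod (one_le _ _ hF)
    have h' : |(sb : ℝ) * cf - s0 / r0 * (y3 / s0)| ≤ 3 * δ := by linarith
    have h'' := mulclose (x := (r' : ℝ)) (X := r0) (by linarith) (by linarith) h' hr1 (by
      rw [abs_mul]
      exact mul_le_one₀ hprod (abs_nonneg _) (one_le _ _ hF))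
    have e1 : r0 * (s0 / r0 * (y3 / s0)) = y3 := by field_simp
    rw [e1] at h''
    linarith
  have m5 : |(r' : ℝ) * (sb * sf) - z3| < ε / 3 := by
    have h := mulclose (by linarith) c4.le c6.le hprod (one_le' _ _ hF)
    have h' : |(sb : ℝ) * sf - s0 / r0 * (z3 / s0)| ≤ 3 * δ := by linarith
    have h'' := mulclose (x := (r' : ℝ)) (X := r0) (by linarith) (by linarith) h' hr1 (by
      rw [abs_mul]
      exact mul_le_one₀ hprod (abs_nonneg _) (one_le' _ _ hF))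
    have e1 : r0 * (s0 / r0 * (z3 / s0)) = z3 := by field_simp
    rw [e1] at h''
    linarith
  have m0 : |(p' : ℝ) - a| < ε / 3 := by linarith
  refine ⟨V10 p' q' r' ca sa cb sb cf sf, edges_of_lt _ ?_, faces_at_zero _ ?_, ?_⟩
  · intro i j hij
    have hc : (i = 0 ∧ j = 1) ∨ (i = 0 ∧ j = 2) ∨ (i = 0 ∧ j = 3) ∨ (i = 1 ∧ j = 2) ∨
        (i = 1 ∧ j = 3) ∨ (i = 2 ∧ j = 3) := by
      revert i j
      decide
    rcases hc with ⟨rfl, rfl⟩ | ⟨rfl, rfl⟩ | ⟨rfl, rfl⟩ | ⟨rfl, rfl⟩ | ⟨rfl, rfl⟩ | ⟨rfl, rfl⟩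
    · rw [k1]; exact ⟨p', by ring⟩
    · rw [k2]; exact ⟨q', by ring⟩
    · rw [k3]; exact ⟨r', by ring⟩
    · rw [k4, d4]; exact ⟨u, by ring⟩
    · rw [k5, d5]; exact ⟨v, by ring⟩
    · rw [k6, d6]; exact ⟨w, by ring⟩
  · intro j l h0j hjl
    have hc : (j = 1 ∧ l = 2) ∨ (j = 1 ∧ l = 3) ∨ (j = 2 ∧ l = 3) := by
      revert j l
      decide
    rcases hc with ⟨rfl, rfl⟩ | ⟨rfl, rfl⟩ | ⟨rfl, rfl⟩
    · rw [k1, k4, k2]
      refine ⟨2 * p' * q' * sa, ?_⟩
      unfold her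
      linear_combination (-4) * p' ^ 2 * q' ^ 2 * t1
    · rw [k1, k5, k3]
      refine ⟨2 * p' * r' * sb, ?_⟩
      unfold her
      linear_combination (-4) * p' ^ 2 * r' ^ 2 * t2
    · rw [k2, k6, k3]
      refine ⟨2 * q' * r' * sg, ?_⟩
      unfold her
      linear_combination (-4) * q' ^ 2 * r' ^ 2 * t4
  · have hz0 : |(0 : ℝ) - 0| < ε / 3 := by simpa using hε
    intro i
    fin_cases i
    · show dist (p 0) (pt (p 0) e (V10 p' q' r' ca sa cb sb cf sf) 0) < ε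
      have : pt (p 0) e (V10 p' q' r' ca sa cb sb cf sf) 0 = p 0 := by
        simp [pt, V10]
      rw [this, dist_self]
      exact hε
    · show dist (p 1) (pt (p 0) e (V10 p' q' r' ca sa cb sb cf sf) 1) < ε
      rw [h1]
      simp only [pt, V10, Matrix.cons_val_zero, Matrix.cons_val_one, Matrix.cons_val, Rat.cast_zero]
      exact close_dis he _ m0 hz0 hz0
    · show dist (p 2) (pt (p 0) e (V10 p' q' r' ca sa cb sb cf sf) 2) < ε
      rw [h2]
      simp only [pt, V10, Matrix.cons_val_zero, Matrix.cons_val_one, Matrix.cons_val, Rat.cast_zero,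
        Rat.cast_mul]
      exact close_dis he _ m1 m2 hz0
    · show dist (p 3) (pt (p 0) e (V10 p' q' r' ca sa cb sb cf sf) 3) < ε
      rw [h3]
      simp only [pt, V10, Matrix.cons_val_zero, Matrix.cons_val_one, Matrix.cons_val, Rat.cast_mul]
      exact close_dis he _ m3 m4 m5

lemma finish10 (O : E3) (e : Fin 3 → E3) (he : Orthonormal ℝ e) (V : Fin 4 → Fin 3 → ℚ)
    (v : Fin 4) (hE : ∀ i j, IsSquare (dsq V i j))
    (hA : ∀ j k, IsSquare (her (dsq V v j) (dsq V j k) (dsq V v k))) :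
    (∀ i j, ∃ r : ℚ, (r : ℝ) = dist (pt O e V i) (pt O e V j)) ∧
    (∀ j k, ∃ r : ℚ, (r : ℝ) =
      Real.sqrt ((dist (pt O e V v) (pt O e V j) + dist (pt O e V j) (pt O e V k)
            + dist (pt O e V v) (pt O e V k)) *
        (-dist (pt O e V v) (pt O e V j) + dist (pt O e V j) (pt O e V k)
            + dist (pt O e V v) (pt O e V k)) *
        (dist (pt O e V v) (pt O e V j) - dist (pt O e V j) (pt O e V k)
            + dist (pt O e V v) (pt O e V k)) *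
        (dist (pt O e V v) (pt O e V j) + dist (pt O e V j) (pt O e V k)
            - dist (pt O e V v) (pt O e V k))) / 4) ∧
    (∃ r : ℚ, (r : ℝ) = |Matrix.det (Matrix.of (fun a b : Fin 3 =>
        WithLp.ofLp (pt O e V a.succ - pt O e V 0) b))| / 6) := by
  refine ⟨?_, ?_, ?_⟩
  · intro i j
    obtain ⟨r, hr⟩ := hE i j
    refine ⟨|r|, ?_⟩
    have h := dist_pt O e he V i j
    rw [hr] at h
    have h2 : dist (pt O e V i) (pt O e V j) ^ 2 = |(r:ℝ)| ^ 2 := by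
      rw [h, sq_abs]
      push_cast
      ring
    have h3 := (pow_left_inj₀ dist_nonneg (abs_nonneg _) two_ne_zero).mp h2
    rw [h3]
    push_cast
    rfl
  · intro j k
    obtain ⟨t, ht⟩ := hA j k
    exact ⟨|t| / 4, sqrt_heron (dist_pt O e he V v j) (dist_pt O e he V j k)
      (dist_pt O e he V v k) ht⟩
  · have hmat : Matrix.of (fun a b : Fin 3 => WithLp.ofLp (pt O e V a.succ - pt O e V 0) b)
        = Matrix.of (fun a j : Fin 3 => ((V a.succ j - V 0 j : ℚ) : ℝ))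
          * Matrix.of (fun j b : Fin 3 => (e j) b) := by
      ext a b
      rw [Matrix.mul_apply, Matrix.of_apply, pt_sub, Fin.sum_univ_three]
      simp
    rw [hmat, Matrix.det_mul, abs_mul, det_frame e he, mul_one]
    refine ⟨|Matrix.det (Matrix.of (fun a j : Fin 3 => V a.succ j - V 0 j))| / 6, ?_⟩
    push_cast
    congr 3
    ext a j
    simp

theorem main10 (p : Fin 4 → E3) (hp : AffineIndependent ℝ p) (v : Fin 4) (ε : ℝ) (hε : 0 < ε) :
    ∃ q : Fin 4 → E3,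
      AffineIndependent ℝ q ∧
      (∀ i, dist (p i) (q i) < ε) ∧
      (∀ i j, ∃ r : ℚ, (r : ℝ) = dist (q i) (q j)) ∧
      (∀ j k, ∃ r : ℚ, (r : ℝ) =
        Real.sqrt ((dist (q v) (q j) + dist (q j) (q k) + dist (q v) (q k)) *
          (-dist (q v) (q j) + dist (q j) (q k) + dist (q v) (q k)) *
          (dist (q v) (q j) - dist (q j) (q k) + dist (q v) (q k)) *
          (dist (q v) (q j) + dist (q j) (q k) - dist (q v) (q k))) / 4) ∧
      (∃ r : ℚ, (r : ℝ) =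
        |Matrix.det (Matrix.of (fun a b : Fin 3 =>
          WithLp.ofLp (q a.succ - q 0) b))| / 6) := by
  obtain ⟨σ, hσ⟩ : ∃ σ : Equiv.Perm (Fin 4), σ = Equiv.swap 0 v := ⟨_, rfl⟩
  have hσv : σ.symm v = 0 := by
    rw [hσ, Equiv.symm_swap, Equiv.swap_apply_right]
  have hp' : AffineIndependent ℝ (p ∘ σ) := (affineIndependent_equiv σ).mpr hp
  obtain ⟨O, e, he, hV⟩ := approx10 hp'
  obtain ⟨ε1, hε1, hball⟩ := Metric.isOpen_iff.mp
    (isOpen_setOfPred_affineIndependent (𝕜 := ℝ) (E := E3) (ι := Fin 4)) p hp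
  obtain ⟨V, h1, h2, h3⟩ := hV (min ε ε1) (lt_min hε hε1)
  have hclose : ∀ i, dist (p i) (pt O e (fun i => V (σ.symm i)) i) < min ε ε1 := by
    intro i
    have := h3 (σ.symm i)
    simpa [pt] using this
  obtain ⟨k1, k2, k3⟩ := finish10 O e he (fun i => V (σ.symm i)) v
    (fun i j => h1 (σ.symm i) (σ.symm j))
    (fun j l => by
      have := h2 (σ.symm j) (σ.symm l)
      have e1 : ∀ i, dsq (fun i => V (σ.symm i)) v i = dsq V 0 (σ.symm i) := by
        intro i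
        unfold dsq
        simp only [hσv]
      rw [e1, e1]
      exact this)
  refine ⟨pt O e (fun i => V (σ.symm i)), ?_, fun i => lt_of_lt_of_le (hclose i) (min_le_left _ _),
    k1, k2, k3⟩
  apply hball
  rw [Metric.mem_ball, dist_comm, dist_pi_lt_iff hε1]
  exact fun i => lt_of_lt_of_le (hclose i) (min_le_right _ _)

end Pool.Agent.RT10
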