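import Pool.Agent.RT10.Dense

/-!
# Module RT10/Line: rational points on a line at rational distance from two points

`a = κ² + S1² + S2²`, `b = S1² S2²`; `a > 0`, `b > 0`, `a - 2 |S1 S2| = κ² + (|S1| - |S2|)² > 0`, so `a² ≠ 4 b`.
The point `(-S1², S1² κ)` is on the curve, its double has abscissa `X = ((S1² - S2²) / (2 κ))²`
(`onW_dbl`: `((S1⁴ - S1² S2²) / (2 S1² κ))²`), and `hI1`, `hI2` say exactly that `X` is `Near`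
(`‖2‖ = 1/2`, so `‖X‖ = 4 ‖S1² - S2²‖² / ‖κ‖²`).  So `inf_of_near` and `dense_W` apply.

For a rational point `(X, Y)` with `X, Y > 0` put
`m = (Y + κ X) / (X + S2²)`, `n = (Y - κ X) / (X + S1²)`, `ξ = (m - S1² / m) / 2`, `v = (m + S1² / m) / 2`,
`ζ = (n - S2² / n) / 2`, `w = (n + S2² / n) / 2`.  Then `m n = X` (so `m, n ≠ 0`), `ξ - ζ = κ`,
`v² = ξ² + S1²`, `w² = ζ² + S2²`.

Density: let `ξ0` real, `ζ0 = ξ0 - κ`, `v0 = √(ξ0² + S1²) > |ξ0|`, `w0 = √(ζ0² + S2²) > |ζ0|`, `m0 = v0 + ξ0 > 0`,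
`n0 = w0 + ζ0 > 0`, `X0 = m0 n0 > 0`, `Y0 = X0 (v0 + w0) > 0`.  `(X0, Y0)` is on the real curve and
`(Y0 + κ X0) / (X0 + S2²) = m0` (because `X0 + S2² = n0 (v0 + w0 + κ)` and `v0 + w0 + κ > 0`).
With `y(X) = √(X³ + a X² + b X)` the function `X ↦ ξ(X) = (m(X) - S1² / m(X)) / 2`, `m(X) = (y(X) + κ X)/(X + S2²)`, is
continuous at `X0` and `ξ(X0) = ξ0`; take a rational point of `dense_W` with `X` close to `X0` (then `Y = y(X)`).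
-/

set_option autoImplicit false

namespace Pool.Agent.RT10

private noncomputable def lineM (S2 κ a b X : ℝ) : ℝ :=
  (Real.sqrt (X ^ 3 + a * X ^ 2 + b * X) + κ * X) / (X + S2 ^ 2)

private noncomputable def lineX (S1 S2 κ a b X : ℝ) : ℝ :=
  (lineM S2 κ a b X - S1 ^ 2 / lineM S2 κ a b X) / 2

private theorem line_real {S1 S2 κ : ℝ} (h1 : S1 ≠ 0) (h2 : S2 ≠ 0) (ξ0 : ℝ) :
    ∃ X0 : ℝ, 0 < X0 ∧
      ContinuousAt (lineX S1 S2 κ (κ ^ 2 + S1 ^ 2 + S2 ^ 2) (S1 ^ 2 * S2 ^ 2)) X0 ∧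
      lineX S1 S2 κ (κ ^ 2 + S1 ^ 2 + S2 ^ 2) (S1 ^ 2 * S2 ^ 2) X0 = ξ0 := by
  obtain ⟨ζ0, hζ⟩ : ∃ ζ0 : ℝ, ζ0 = ξ0 - κ := ⟨_, rfl⟩
  have hs1 : 0 < S1 ^ 2 := by positivity
  have hs2 : 0 < S2 ^ 2 := by positivity
  obtain ⟨v0, hv⟩ : ∃ v0 : ℝ, v0 = Real.sqrt (ξ0 ^ 2 + S1 ^ 2) := ⟨_, rfl⟩
  obtain ⟨w0, hw⟩ : ∃ w0 : ℝ, w0 = Real.sqrt (ζ0 ^ 2 + S2 ^ 2) := ⟨_, rfl⟩
  have hv2 : v0 ^ 2 = ξ0 ^ 2 + S1 ^ 2 := by rw [hv, Real.sq_sqrt (by positivity)]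
  have hw2 : w0 ^ 2 = ζ0 ^ 2 + S2 ^ 2 := by rw [hw, Real.sq_sqrt (by positivity)]
  have hv0 : 0 ≤ v0 := by rw [hv]; exact Real.sqrt_nonneg _
  have hw0 : 0 ≤ w0 := by rw [hw]; exact Real.sqrt_nonneg _
  have hva : |ξ0| < v0 := by
    apply abs_lt_of_sq_lt_sq _ hv0
    linarith
  have hwa : |ζ0| < w0 := by
    apply abs_lt_of_sq_lt_sq _ hw0
    linarith
  obtain ⟨hv3, hv4⟩ := abs_lt.1 hva
  obtain ⟨hw3, hw4⟩ := abs_lt.1 hwa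
  obtain ⟨m0, hm⟩ : ∃ m0 : ℝ, m0 = v0 + ξ0 := ⟨_, rfl⟩
  obtain ⟨n0, hn⟩ : ∃ n0 : ℝ, n0 = w0 + ζ0 := ⟨_, rfl⟩
  have hm0 : 0 < m0 := by linarith
  have hn0 : 0 < n0 := by linarith
  have hsum : 0 < v0 + w0 + κ := by linarith
  have hA : m0 * n0 + S2 ^ 2 = n0 * (v0 + w0 + κ) := by
    have e1 : S2 ^ 2 = (w0 - ζ0) * (w0 + ζ0) := by nlinarith
    rw [e1, hm, hn, hζ]
    ring
  have hB : m0 * n0 + S1 ^ 2 = m0 * (v0 + w0 - κ) := by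
    have e1 : S1 ^ 2 = (v0 - ξ0) * (v0 + ξ0) := by nlinarith
    rw [e1, hm, hn, hζ]
    ring
  have hX0 : 0 < m0 * n0 := mul_pos hm0 hn0
  have hsq : (m0 * n0) ^ 3 + (κ ^ 2 + S1 ^ 2 + S2 ^ 2) * (m0 * n0) ^ 2 +
      S1 ^ 2 * S2 ^ 2 * (m0 * n0) = (m0 * n0 * (v0 + w0)) ^ 2 := by
    have e1 : (m0 * n0) ^ 3 + (κ ^ 2 + S1 ^ 2 + S2 ^ 2) * (m0 * n0) ^ 2 +
      S1 ^ 2 * S2 ^ 2 * (m0 * n0) = m0 * n0 * ((m0 * n0 + S1 ^ 2) * (m0 * n0 + S2 ^ 2)) +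
        κ ^ 2 * (m0 * n0) ^ 2 := by ring
    rw [e1, hA, hB]
    ring
  have hy : Real.sqrt ((m0 * n0) ^ 3 + (κ ^ 2 + S1 ^ 2 + S2 ^ 2) * (m0 * n0) ^ 2 +
      S1 ^ 2 * S2 ^ 2 * (m0 * n0)) = m0 * n0 * (v0 + w0) := by
    rw [hsq, Real.sqrt_sq (by positivity)]
  have hM : lineM S2 κ (κ ^ 2 + S1 ^ 2 + S2 ^ 2) (S1 ^ 2 * S2 ^ 2) (m0 * n0) = m0 := by
    unfold lineM
    rw [hy, hA]
    have hn0' := hn0.ne'
    have hsum' := hsum.ne'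
    field_simp
  refine ⟨m0 * n0, hX0, ?_, ?_⟩
  · have hden : m0 * n0 + S2 ^ 2 ≠ 0 := by positivity
    have hMc : ContinuousAt (lineM S2 κ (κ ^ 2 + S1 ^ 2 + S2 ^ 2) (S1 ^ 2 * S2 ^ 2)) (m0 * n0) := by
      unfold lineM
      apply ContinuousAt.div
      · exact (Continuous.continuousAt (by fun_prop))
      · exact (Continuous.continuousAt (by fun_prop))
      · exact hden
    unfold lineX
    apply ContinuousAt.div_const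
    apply ContinuousAt.sub hMc
    apply ContinuousAt.div continuousAt_const hMc
    rw [hM]
    exact hm0.ne'
  · unfold lineX
    rw [hM]
    have e1 : S1 ^ 2 / m0 = v0 - ξ0 := by
      rw [div_eq_iff hm0.ne', hm]
      nlinarith
    rw [e1, hm]
    ring

theorem line_dense {S1 S2 κ : ℚ} (h1 : S1 ≠ 0) (h2 : S2 ≠ 0) (hκ : κ ≠ 0)
    (hI1 : ‖(κ : ℚ_[2])‖ ^ 2 * ‖((κ ^ 2 + S1 ^ 2 + S2 ^ 2 : ℚ) : ℚ_[2])‖ <
      4 * ‖((S1 ^ 2 - S2 ^ 2 : ℚ) : ℚ_[2])‖ ^ 2)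
    (hI2 : ‖(κ : ℚ_[2])‖ ^ 2 * ‖((S1 * S2 : ℚ) : ℚ_[2])‖ <
      4 * ‖((S1 ^ 2 - S2 ^ 2 : ℚ) : ℚ_[2])‖ ^ 2)
    (ξ0 ε : ℝ) (hε : 0 < ε) :
    ∃ ξ v w : ℚ, |(ξ : ℝ) - ξ0| < ε ∧ ξ ^ 2 + S1 ^ 2 = v ^ 2 ∧ (ξ - κ) ^ 2 + S2 ^ 2 = w ^ 2 := by
  obtain ⟨a, hadef⟩ : ∃ a : ℚ, a = κ ^ 2 + S1 ^ 2 + S2 ^ 2 := ⟨_, rfl⟩
  obtain ⟨b, hbdef⟩ : ∃ b : ℚ, b = S1 ^ 2 * S2 ^ 2 := ⟨_, rfl⟩
  have hs1 : 0 < S1 ^ 2 := by positivity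
  have hs2 : 0 < S2 ^ 2 := by positivity
  have hk2 : 0 < κ ^ 2 := by positivity
  have ha : 0 < a := by rw [hadef]; positivity
  have hb : 0 < b := by rw [hbdef]; positivity
  have hab : a ^ 2 ≠ 4 * b := by
    have e1 : a ^ 2 - 4 * b = (κ ^ 2 + (S1 - S2) ^ 2) * (κ ^ 2 + (S1 + S2) ^ 2) := by
      rw [hadef, hbdef]
      ring
    have e2 : 0 < (κ ^ 2 + (S1 - S2) ^ 2) * (κ ^ 2 + (S1 + S2) ^ 2) := by positivity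
    intro h
    linarith
  -- the starting point
  have hP : OnW a b (-S1 ^ 2) (S1 ^ 2 * κ) := by
    unfold OnW
    rw [hadef, hbdef]
    ring
  have hPy : S1 ^ 2 * κ ≠ 0 := mul_ne_zero hs1.ne' hκ
  obtain ⟨y', hy'⟩ := onW_dbl hP hPy
  have hX : (((-S1 ^ 2) ^ 2 - b) / (2 * (S1 ^ 2 * κ))) ^ 2 = ((S1 ^ 2 - S2 ^ 2) / (2 * κ)) ^ 2 := by
    rw [hbdef]
    field_simp
  rw [hX] at hy'
  have hκp : 0 < ‖(κ : ℚ_[2])‖ := norm_pos_iff.2 (by exact_mod_cast hκ)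
  have hnorm : ‖((((S1 ^ 2 - S2 ^ 2) / (2 * κ)) ^ 2 : ℚ) : ℚ_[2])‖ =
      4 * ‖((S1 ^ 2 - S2 ^ 2 : ℚ) : ℚ_[2])‖ ^ 2 / ‖(κ : ℚ_[2])‖ ^ 2 := by
    have h2n : ‖(2 : ℚ_[2])‖ = 1 / 2 := by
      have := Padic.norm_p (p := 2)
      rw [show ((2 : ℕ) : ℚ_[2]) = (2 : ℚ_[2]) by norm_num] at this
      rw [this]
      norm_num
    rw [Rat.cast_pow, Rat.cast_div, Rat.cast_mul, norm_pow, norm_div, norm_mul,
      show ((2 : ℚ) : ℚ_[2]) = (2 : ℚ_[2]) by norm_num, h2n]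
    field_simp
    ring
  have hNear : Near a b (((S1 ^ 2 - S2 ^ 2) / (2 * κ)) ^ 2) := by
    have hA : ‖(a : ℚ_[2])‖ < ‖((((S1 ^ 2 - S2 ^ 2) / (2 * κ)) ^ 2 : ℚ) : ℚ_[2])‖ := by
      rw [hnorm, lt_div_iff₀ (by positivity), hadef, mul_comm]
      exact hI1
    have hB : ‖((S1 * S2 : ℚ) : ℚ_[2])‖ <
        ‖((((S1 ^ 2 - S2 ^ 2) / (2 * κ)) ^ 2 : ℚ) : ℚ_[2])‖ := by
      rw [hnorm, lt_div_iff₀ (by positivity), mul_comm]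
      exact hI2
    refine ⟨hA, ?_⟩
    have e1 : ‖(b : ℚ_[2])‖ = ‖((S1 * S2 : ℚ) : ℚ_[2])‖ ^ 2 := by
      rw [← norm_pow, hbdef]
      congr 1
      push_cast
      ring
    rw [e1]
    exact pow_lt_pow_left₀ hB (norm_nonneg _) (by norm_num)
  have hinf := inf_of_near ⟨_, y', hy', hNear⟩
  -- the real parameter
  have h1R : (S1 : ℝ) ≠ 0 := by exact_mod_cast h1
  have h2R : (S2 : ℝ) ≠ 0 := by exact_mod_cast h2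
  obtain ⟨X0, hX0, hcont, hval⟩ := line_real (κ := (κ : ℝ)) h1R h2R ξ0
  rw [Metric.continuousAt_iff] at hcont
  obtain ⟨δ, hδ, hδ'⟩ := hcont ε hε
  rw [hval] at hδ'
  obtain ⟨X, Y, hXY, hY, hX1, hX2⟩ := dense_W ha hb hab hinf (max (X0 - δ / 2) (X0 / 2)) (X0 + δ / 2)
    (lt_max_of_lt_right (by linarith)) (max_lt (by linarith) (by linarith))
  have hX3 : X0 - δ / 2 < (X : ℝ) := (le_max_left _ _).trans_lt hX1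
  have hX4 : X0 / 2 < (X : ℝ) := (le_max_right _ _).trans_lt hX1
  have hXR : (0 : ℝ) < X := by linarith
  have hXp : 0 < X := by exact_mod_cast hXR
  have hdist : dist (X : ℝ) X0 < δ := by
    rw [Real.dist_eq, abs_lt]
    constructor <;> linarith
  have hfin := hδ' hdist
  rw [Real.dist_eq] at hfin
  -- the rational point
  obtain ⟨m, hm⟩ : ∃ m : ℚ, m = (Y + κ * X) / (X + S2 ^ 2) := ⟨_, rfl⟩
  obtain ⟨n, hn⟩ : ∃ n : ℚ, n = (Y - κ * X) / (X + S1 ^ 2) := ⟨_, rfl⟩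
  have hd1 : X + S1 ^ 2 ≠ 0 := by positivity
  have hd2 : X + S2 ^ 2 ≠ 0 := by positivity
  have hm' : m * (X + S2 ^ 2) = Y + κ * X := by rw [hm, div_mul_cancel₀ _ hd2]
  have hn' : n * (X + S1 ^ 2) = Y - κ * X := by rw [hn, div_mul_cancel₀ _ hd1]
  have hmn : m * n = X := by
    have hcurve : Y ^ 2 = X ^ 3 + a * X ^ 2 + b * X := hXY
    have e1 : (m * n) * ((X + S1 ^ 2) * (X + S2 ^ 2)) = X * ((X + S1 ^ 2) * (X + S2 ^ 2)) := by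
      have e2 : (m * n) * ((X + S1 ^ 2) * (X + S2 ^ 2)) =
          (m * (X + S2 ^ 2)) * (n * (X + S1 ^ 2)) := by ring
      rw [e2, hm', hn']
      rw [hadef, hbdef] at hcurve
      linear_combination hcurve
    exact mul_right_cancel₀ (mul_ne_zero hd1 hd2) e1
  have hm0 : m ≠ 0 := by
    rintro rfl
    rw [zero_mul] at hmn
    linarith
  have hn0 : n ≠ 0 := by
    rintro rfl
    rw [mul_zero] at hmn
    linarith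
  refine ⟨(m - S1 ^ 2 / m) / 2, (m + S1 ^ 2 / m) / 2, (n + S2 ^ 2 / n) / 2, ?_, ?_, ?_⟩
  · have hyR : Real.sqrt ((X : ℝ) ^ 3 + ((κ : ℝ) ^ 2 + (S1 : ℝ) ^ 2 + (S2 : ℝ) ^ 2) * (X : ℝ) ^ 2 +
        (S1 : ℝ) ^ 2 * (S2 : ℝ) ^ 2 * (X : ℝ)) = (Y : ℝ) := by
      have hcurve : Y ^ 2 = X ^ 3 + a * X ^ 2 + b * X := hXY
      rw [hadef, hbdef] at hcurve
      have hcR : (Y : ℝ) ^ 2 = (X : ℝ) ^ 3 + ((κ : ℝ) ^ 2 + (S1 : ℝ) ^ 2 + (S2 : ℝ) ^ 2) *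
          (X : ℝ) ^ 2 + (S1 : ℝ) ^ 2 * (S2 : ℝ) ^ 2 * (X : ℝ) := by exact_mod_cast hcurve
      rw [← hcR, Real.sqrt_sq (by exact_mod_cast hY.le)]
    have hMR : lineM S2 κ ((κ : ℝ) ^ 2 + (S1 : ℝ) ^ 2 + (S2 : ℝ) ^ 2)
        ((S1 : ℝ) ^ 2 * (S2 : ℝ) ^ 2) X = (m : ℝ) := by
      unfold lineM
      rw [hyR, hm]
      push_cast
      rfl
    have hXi : lineX S1 S2 κ ((κ : ℝ) ^ 2 + (S1 : ℝ) ^ 2 + (S2 : ℝ) ^ 2)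
        ((S1 : ℝ) ^ 2 * (S2 : ℝ) ^ 2) X = (((m - S1 ^ 2 / m) / 2 : ℚ) : ℝ) := by
      unfold lineX
      rw [hMR]
      push_cast
      rfl
    rw [← hXi]
    exact hfin
  · field_simp
    ring
  · have e1 : S1 ^ 2 / m = S1 ^ 2 * n / X := by
      rw [← hmn]
      field_simp
    have e2 : S2 ^ 2 / n = S2 ^ 2 * m / X := by
      rw [← hmn]
      field_simp
    have e3 : (m - S1 ^ 2 / m) / 2 - κ = (n - S2 ^ 2 / n) / 2 := by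
      rw [e1, e2]
      have e4 : m * (X + S2 ^ 2) - n * (X + S1 ^ 2) = 2 * κ * X := by
        rw [hm', hn']
        ring
      field_simp
      linear_combination e4
    rw [e3]
    field_simp
    ring

end Pool.Agent.RT10
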