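import Pool.Agent.RT10.Angle
import Pool.Agent.RT10.Fin

/-!
# RT10/OneEdge: tetrahedra with five rational edges, four rational face areas and rational volume are dense
-/

set_option autoImplicit false

namespace Pool.Agent.RT10

open Filter Topology Pool.Agent.RatTet Pool.Agent.RatTet.Dis

lemma tendsto_of_close {x : ℕ → ℚ} {X : ℝ} (h : ∀ n, |(x n : ℝ) - X| < 1 / ((n : ℝ) + 1)) :
    Tendsto (fun n => (x n : ℝ)) atTop (𝓝 X) := by
  rw [tendsto_iff_dist_tendsto_zero]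
  refine squeeze_zero (fun n => dist_nonneg) (fun n => ?_) tendsto_one_div_add_atTop_nhds_zero_nat
  rw [Real.dist_eq]
  exact (h n).le

/-- the algebra of the two trihedral angles at the ends of the edge `AB` -/
lemma edge_algebra {p q r q' r' ca sa cb sb ca' sa' cb' sb' cf cg cg' : ℚ}
    (ha : ca ^ 2 + sa ^ 2 = 1) (hb : cb ^ 2 + sb ^ 2 = 1)
    (ha' : ca' ^ 2 + sa' ^ 2 = 1) (hb' : cb' ^ 2 + sb' ^ 2 = 1)
    (hrel : cg = ca * cb + sa * sb * cf) (hrel' : cg' = ca' * cb' + sa' * sb' * cf)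
    (hq1 : q * ca = p - q' * ca') (hq2 : q * sa = q' * sa')
    (hr1 : r * cb = p - r' * cb') (hr2 : r * sb = r' * sb') :
    q ^ 2 + r ^ 2 - 2 * q * r * cg = q' ^ 2 + r' ^ 2 - 2 * q' * r' * cg' ∧
    p ^ 2 + q ^ 2 - 2 * p * q * ca = q' ^ 2 ∧ p ^ 2 + r ^ 2 - 2 * p * r * cb = r' ^ 2 := by
  have e1 : q ^ 2 + r ^ 2 - 2 * q * r * cg = (q * ca - r * cb) ^ 2 + (q * sa) ^ 2 + (r * sb) ^ 2
      - 2 * (q * sa) * (r * sb) * cf := by
    rw [hrel]
    linear_combination (-q ^ 2) * ha + (-r ^ 2) * hb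
  have e2 : p ^ 2 + q ^ 2 - 2 * p * q * ca = (p - q * ca) ^ 2 + (q * sa) ^ 2 := by
    linear_combination (-q ^ 2) * ha
  have e3 : p ^ 2 + r ^ 2 - 2 * p * r * cb = (p - r * cb) ^ 2 + (r * sb) ^ 2 := by
    linear_combination (-r ^ 2) * hb
  refine ⟨?_, ?_, ?_⟩
  · rw [e1, hq1, hq2, hr1, hr2, hrel']
    linear_combination q' ^ 2 * ha' + r' ^ 2 * hb'
  · rw [e2, hq1, hq2]
    linear_combination q' ^ 2 * ha'
  · rw [e3, hr1, hr2]
    linear_combination r' ^ 2 * hb'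

lemma side_of_angles {p c s c' s' : ℚ} (h : c ^ 2 + s ^ 2 = 1) (h' : c' ^ 2 + s' ^ 2 = 1)
    (hS : s * c' + c * s' ≠ 0) :
    p * s' / (s * c' + c * s') * c = p - p * s / (s * c' + c * s') * c' ∧
    p * s' / (s * c' + c * s') * s = p * s / (s * c' + c * s') * s' := by
  obtain ⟨S, hSd⟩ : ∃ S : ℚ, S = s * c' + c * s' := ⟨_, rfl⟩
  rw [← hSd] at hS ⊢
  constructor
  · field_simp
    rw [hSd]
    ring
  · field_simp

theorem approxE {p : Fin 4 → E3} (hp : AffineIndependent ℝ p) :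
    ∃ (O : E3) (e : Fin 3 → E3), Orthonormal ℝ e ∧ ∀ ε : ℝ, 0 < ε →
      ∃ V : Fin 4 → Fin 3 → ℚ,
      (∀ i j, ¬ (i = 2 ∧ j = 3) → ¬ (i = 3 ∧ j = 2) → IsSquare (dsq V i j)) ∧
      (∀ i j l, IsSquare (her (dsq V i j) (dsq V j l) (dsq V i l))) ∧
      ∀ i, dist (p i) (pt O e V i) < ε := by
  obtain ⟨e, he, a, x, y, x3, y3, z3, ha, hy, hz, h0, h1, h2, h3⟩ := exists_frame_dis hp
  refine ⟨p 0, e, he, fun ε hε => ?_⟩
  obtain ⟨q0, hq0⟩ : ∃ t : ℝ, t = Real.sqrt (x ^ 2 + y ^ 2) := ⟨_, rfl⟩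
  have hq0pos : 0 < q0 := by rw [hq0]; exact Real.sqrt_pos.2 (by positivity)
  have hq0sq : q0 ^ 2 = x ^ 2 + y ^ 2 := by rw [hq0]; exact Real.sq_sqrt (by positivity)
  obtain ⟨q1, hq1⟩ : ∃ t : ℝ, t = Real.sqrt ((a - x) ^ 2 + y ^ 2) := ⟨_, rfl⟩
  have hq1pos : 0 < q1 := by rw [hq1]; exact Real.sqrt_pos.2 (by positivity)
  have hq1sq : q1 ^ 2 = (a - x) ^ 2 + y ^ 2 := by rw [hq1]; exact Real.sq_sqrt (by positivity)
  obtain ⟨s0, hs0⟩ : ∃ t : ℝ, t = Real.sqrt (y3 ^ 2 + z3 ^ 2) := ⟨_, rfl⟩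
  have hs0pos : 0 < s0 := by rw [hs0]; exact Real.sqrt_pos.2 (by positivity)
  have hs0sq : s0 ^ 2 = y3 ^ 2 + z3 ^ 2 := by rw [hs0]; exact Real.sq_sqrt (by positivity)
  obtain ⟨r0, hr0⟩ : ∃ t : ℝ, t = Real.sqrt (x3 ^ 2 + s0 ^ 2) := ⟨_, rfl⟩
  have hr0pos : 0 < r0 := by rw [hr0]; exact Real.sqrt_pos.2 (by positivity)
  have hr0sq : r0 ^ 2 = x3 ^ 2 + s0 ^ 2 := by rw [hr0]; exact Real.sq_sqrt (by positivity)
  obtain ⟨r1, hr1⟩ : ∃ t : ℝ, t = Real.sqrt ((a - x3) ^ 2 + s0 ^ 2) := ⟨_, rfl⟩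
  have hr1pos : 0 < r1 := by rw [hr1]; exact Real.sqrt_pos.2 (by positivity)
  have hr1sq : r1 ^ 2 = (a - x3) ^ 2 + s0 ^ 2 := by rw [hr1]; exact Real.sq_sqrt (by positivity)
  have hA : (x / q0) ^ 2 + (y / q0) ^ 2 = 1 := by
    rw [div_pow, div_pow, ← add_div, ← hq0sq, div_self (by positivity)]
  have hA' : ((a - x) / q1) ^ 2 + (y / q1) ^ 2 = 1 := by
    rw [div_pow, div_pow, ← add_div, ← hq1sq, div_self (by positivity)]
  have hB : (x3 / r0) ^ 2 + (s0 / r0) ^ 2 = 1 := by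
    rw [div_pow, div_pow, ← add_div, ← hr0sq, div_self (by positivity)]
  have hB' : ((a - x3) / r1) ^ 2 + (s0 / r1) ^ 2 = 1 := by
    rw [div_pow, div_pow, ← add_div, ← hr1sq, div_self (by positivity)]
  have hF : (y3 / s0) ^ 2 + (z3 / s0) ^ 2 = 1 := by
    rw [div_pow, div_pow, ← add_div, ← hs0sq, div_self (by positivity)]
  -- the rational data
  have data : ∀ n : ℕ, ∃ P CA SA CA' SA' CF SF CB SB SG CB' SB' SG' : ℚ,
      (CA ^ 2 + SA ^ 2 = 1 ∧ CA' ^ 2 + SA' ^ 2 = 1 ∧ CF ^ 2 + SF ^ 2 = 1 ∧ CB ^ 2 + SB ^ 2 = 1 ∧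
      CB' ^ 2 + SB' ^ 2 = 1 ∧ (CA * CB + SA * SB * CF) ^ 2 + SG ^ 2 = 1 ∧
      (CA' * CB' + SA' * SB' * CF) ^ 2 + SG' ^ 2 = 1) ∧
      |(P : ℝ) - a| < 1 / ((n : ℝ) + 1) ∧
      |(CA : ℝ) - x / q0| < 1 / ((n : ℝ) + 1) ∧ |(SA : ℝ) - y / q0| < 1 / ((n : ℝ) + 1) ∧
      |(CA' : ℝ) - (a - x) / q1| < 1 / ((n : ℝ) + 1) ∧ |(SA' : ℝ) - y / q1| < 1 / ((n : ℝ) + 1) ∧
      |(CF : ℝ) - y3 / s0| < 1 / ((n : ℝ) + 1) ∧ |(SF : ℝ) - z3 / s0| < 1 / ((n : ℝ) + 1) ∧
      |(CB : ℝ) - x3 / r0| < 1 / ((n : ℝ) + 1) ∧ |(SB : ℝ) - s0 / r0| < 1 / ((n : ℝ) + 1) ∧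
      |(CB' : ℝ) - (a - x3) / r1| < 1 / ((n : ℝ) + 1) ∧
      |(SB' : ℝ) - s0 / r1| < 1 / ((n : ℝ) + 1) := by
    intro n
    have hn : 0 < 1 / ((n : ℝ) + 1) := by positivity
    obtain ⟨P, hP1, hP2⟩ := exists_rat_btwn (show a - 1 / ((n : ℝ) + 1) < a + 1 / ((n : ℝ) + 1) by
      linarith)
    obtain ⟨CA, SA, b1, b2, b3, b4, b5⟩ := angle_quarter hA (div_pos hy hq0pos) hn
    obtain ⟨CA', SA', c1, c2, c3, c4, c5⟩ := angle_quarter hA' (div_pos hy hq1pos) hn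
    obtain ⟨CF, SF, d1, d2, d3, d4, d5⟩ := angle_sixteenth hF (div_pos hz hs0pos) hn
    obtain ⟨CB, SB, SG, f1, f2, f3, f4, f5⟩ := third_ray b1 d1 b2 d2 b5 d5 hB
      (div_pos hs0pos hr0pos) hn
    obtain ⟨CB', SB', SG', g1, g2, g3, g4, g5⟩ := third_ray c1 d1 c2 d2 c5 d5 hB'
      (div_pos hs0pos hr1pos) hn
    refine ⟨P, CA, SA, CA', SA', CF, SF, CB, SB, SG, CB', SB', SG',
      ⟨b1, c1, d1, f1, g1, f5, g5⟩, ?_, b3, b4, c3, c4, d3, d4, f3, f4, g3, g4⟩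
    rw [abs_lt]
    constructor <;> linarith
  choose P CA SA CA' SA' CF SF CB SB SG CB' SB' SG' hid u1 u2 u3 u4 u5 u6 u7 u8 u9 u10 u11 using data
  have tP := tendsto_of_close u1
  have tCA := tendsto_of_close u2
  have tSA := tendsto_of_close u3
  have tCA' := tendsto_of_close u4
  have tSA' := tendsto_of_close u5
  have tCF := tendsto_of_close u6
  have tSF := tendsto_of_close u7
  have tCB := tendsto_of_close u8
  have tSB := tendsto_of_close u9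
  have tCB' := tendsto_of_close u10
  have tSB' := tendsto_of_close u11
  -- the sines of the angles at C and D
  have tS := (tSA.mul tCA').add (tCA.mul tSA')
  have tS' := (tSB.mul tCB').add (tCB.mul tSB')
  have vS : y / q0 * ((a - x) / q1) + x / q0 * (y / q1) = a * y / (q0 * q1) := by
    field_simp
    ring
  have vS' : s0 / r0 * ((a - x3) / r1) + x3 / r0 * (s0 / r1) = a * s0 / (r0 * r1) := by
    field_simp
    ring
  rw [vS] at tS
  rw [vS'] at tS'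
  have posS : 0 < a * y / (q0 * q1) := by positivity
  have posS' : 0 < a * s0 / (r0 * r1) := by positivity
  have vq : a * (y / q1) / (a * y / (q0 * q1)) = q0 := by
    field_simp
  have vr : a * (s0 / r1) / (a * s0 / (r0 * r1)) = r0 := by
    field_simp
  have tq : Tendsto (fun n => (P n : ℝ) * SA' n / ((SA n : ℝ) * CA' n + CA n * SA' n)) atTop
      (𝓝 q0) := by
    have := ((tP.mul tSA').div tS posS.ne')
    rw [vq] at this
    exact this
  have tr : Tendsto (fun n => (P n : ℝ) * SB' n / ((SB n : ℝ) * CB' n + CB n * SB' n)) atTop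
      (𝓝 r0) := by
    have := ((tP.mul tSB').div tS' posS'.ne')
    rw [vr] at this
    exact this
  have t1 := tq.mul tCA
  have t2 := tq.mul tSA
  have t3 := tr.mul tCB
  have t4 := tr.mul (tSB.mul tCF)
  have t5 := tr.mul (tSB.mul tSF)
  rw [mul_div_cancel₀ _ hq0pos.ne'] at t1 t2
  rw [mul_div_cancel₀ _ hr0pos.ne'] at t3
  have v4 : r0 * (s0 / r0 * (y3 / s0)) = y3 := by field_simp
  have v5 : r0 * (s0 / r0 * (z3 / s0)) = z3 := by field_simp
  rw [v4] at t4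
  rw [v5] at t5
  have hε3 : 0 < ε / 3 := by positivity
  have ev := (((((Metric.tendsto_nhds.1 tP _ hε3).and (Metric.tendsto_nhds.1 t1 _ hε3)).and
    (Metric.tendsto_nhds.1 t2 _ hε3)).and (Metric.tendsto_nhds.1 t3 _ hε3)).and
    (Metric.tendsto_nhds.1 t4 _ hε3)).and (Metric.tendsto_nhds.1 t5 _ hε3)
  have ev2 := (tS.eventually (lt_mem_nhds posS)).and (tS'.eventually (lt_mem_nhds posS'))
  obtain ⟨n, ⟨⟨⟨⟨⟨w0, w1⟩, w2⟩, w3⟩, w4⟩, w5⟩, w6, w7⟩ := (ev.and ev2).exists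
  obtain ⟨i1, i2, i3, i4, i5, i6, i7⟩ := hid n
  simp only [Real.dist_eq] at w0 w1 w2 w3 w4 w5
  generalize P n = pp at *
  generalize CA n = ca at *
  generalize SA n = sa at *
  generalize CA' n = ca' at *
  generalize SA' n = sa' at *
  generalize CF n = cf at *
  generalize SF n = sf at *
  generalize CB n = cb at *
  generalize SB n = sb at *
  generalize SG n = sg at *
  generalize CB' n = cb' at *
  generalize SB' n = sb' at *
  generalize SG' n = sg' at *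
  have hS : sa * ca' + ca * sa' ≠ 0 := by
    have : (0 : ℝ) < ((sa * ca' + ca * sa' : ℚ) : ℝ) := by push_cast; exact w6
    have : 0 < sa * ca' + ca * sa' := by exact_mod_cast this
    exact this.ne'
  have hS' : sb * cb' + cb * sb' ≠ 0 := by
    have : (0 : ℝ) < ((sb * cb' + cb * sb' : ℚ) : ℝ) := by push_cast; exact w7
    have : 0 < sb * cb' + cb * sb' := by exact_mod_cast this
    exact this.ne'
  obtain ⟨j1, j2⟩ := side_of_angles (p := pp) i1 i2 hS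
  obtain ⟨j3, j4⟩ := side_of_angles (p := pp) i4 i5 hS'
  obtain ⟨l1, l2, l3⟩ := edge_algebra (cf := cf) i1 i4 i2 i5 rfl rfl j1 j2 j3 j4
  obtain ⟨q, hq⟩ : ∃ q : ℚ, q = pp * sa' / (sa * ca' + ca * sa') := ⟨_, rfl⟩
  obtain ⟨q', hq'⟩ : ∃ q : ℚ, q = pp * sa / (sa * ca' + ca * sa') := ⟨_, rfl⟩
  obtain ⟨r, hr⟩ : ∃ q : ℚ, q = pp * sb' / (sb * cb' + cb * sb') := ⟨_, rfl⟩
  obtain ⟨r', hr'⟩ : ∃ q : ℚ, q = pp * sb / (sb * cb' + cb * sb') := ⟨_, rfl⟩
  rw [← hq, ← hr, ← hq', ← hr'] at l1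
  rw [← hq, ← hq'] at l2
  rw [← hr, ← hr'] at l3
  have hqc : (q : ℝ) = (pp : ℝ) * sa' / ((sa : ℝ) * ca' + ca * sa') := by rw [hq]; push_cast; rfl
  have hrc : (r : ℝ) = (pp : ℝ) * sb' / ((sb : ℝ) * cb' + cb * sb') := by rw [hr]; push_cast; rfl
  rw [← hqc] at w1 w2
  rw [← hrc] at w3 w4 w5
  obtain ⟨k1, k2, k3, k4, k5, k6⟩ := V10_dsq (p := pp) (q := q) (r := r) i1 i4 i3
    (cg := ca * cb + sa * sb * cf) rfl
  refine ⟨V10 pp q r ca sa cb sb cf sf, ?_, faces_of_sorted _ ?_, ?_⟩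
  · have hlt : ∀ i j : Fin 4, i < j → ¬ (i = 2 ∧ j = 3) →
        IsSquare (dsq (V10 pp q r ca sa cb sb cf sf) i j) := by
      intro i j hij hne
      have hc : (i = 0 ∧ j = 1) ∨ (i = 0 ∧ j = 2) ∨ (i = 0 ∧ j = 3) ∨ (i = 1 ∧ j = 2) ∨
          (i = 1 ∧ j = 3) := by
        revert i j
        decide
      rcases hc with ⟨rfl, rfl⟩ | ⟨rfl, rfl⟩ | ⟨rfl, rfl⟩ | ⟨rfl, rfl⟩ | ⟨rfl, rfl⟩
      · rw [k1]; exact ⟨pp, by ring⟩
      · rw [k2]; exact ⟨q, by ring⟩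
      · rw [k3]; exact ⟨r, by ring⟩
      · rw [k4, l2]; exact ⟨q', by ring⟩
      · rw [k5, l3]; exact ⟨r', by ring⟩
    intro i j hn1 hn2
    rcases lt_trichotomy i j with hh | hh | hh
    · exact hlt i j hh hn1
    · subst hh
      rw [dsq_self]
      exact ⟨0, by ring⟩
    · rw [dsq_comm]
      exact hlt j i hh fun hcon => hn2 ⟨hcon.2, hcon.1⟩
  · intro i j l hij hjl
    have hc : (i = 0 ∧ j = 1 ∧ l = 2) ∨ (i = 0 ∧ j = 1 ∧ l = 3) ∨ (i = 0 ∧ j = 2 ∧ l = 3) ∨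
        (i = 1 ∧ j = 2 ∧ l = 3) := by
      revert i j l
      decide
    rcases hc with ⟨rfl, rfl, rfl⟩ | ⟨rfl, rfl, rfl⟩ | ⟨rfl, rfl, rfl⟩ | ⟨rfl, rfl, rfl⟩
    · rw [k1, k4, k2]
      refine ⟨2 * pp * q * sa, ?_⟩
      unfold her
      linear_combination (-4) * pp ^ 2 * q ^ 2 * i1
    · rw [k1, k5, k3]
      refine ⟨2 * pp * r * sb, ?_⟩
      unfold her
      linear_combination (-4) * pp ^ 2 * r ^ 2 * i4
    · rw [k2, k6, k3]
      refine ⟨2 * q * r * sg, ?_⟩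
      unfold her
      linear_combination (-4) * q ^ 2 * r ^ 2 * i6
    · rw [k4, k6, k5, l1, l2, l3]
      refine ⟨2 * q' * r' * sg', ?_⟩
      unfold her
      linear_combination (-4) * q' ^ 2 * r' ^ 2 * i7
  · have hz0 : |(0 : ℝ) - 0| < ε / 3 := by simpa using hε
    intro i
    fin_cases i
    · show dist (p 0) (pt (p 0) e (V10 pp q r ca sa cb sb cf sf) 0) < ε
      have : pt (p 0) e (V10 pp q r ca sa cb sb cf sf) 0 = p 0 := by
        simp [pt, V10]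
      rw [this, dist_self]
      exact hε
    · show dist (p 1) (pt (p 0) e (V10 pp q r ca sa cb sb cf sf) 1) < ε
      rw [h1]
      simp only [pt, V10, Matrix.cons_val_zero, Matrix.cons_val_one, Matrix.cons_val, Rat.cast_zero]
      exact close_dis he _ w0 hz0 hz0
    · show dist (p 2) (pt (p 0) e (V10 pp q r ca sa cb sb cf sf) 2) < ε
      rw [h2]
      simp only [pt, V10, Matrix.cons_val_zero, Matrix.cons_val_one, Matrix.cons_val, Rat.cast_zero,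
        Rat.cast_mul]
      exact close_dis he _ w1 w2 hz0
    · show dist (p 3) (pt (p 0) e (V10 pp q r ca sa cb sb cf sf) 3) < ε
      rw [h3]
      simp only [pt, V10, Matrix.cons_val_zero, Matrix.cons_val_one, Matrix.cons_val, Rat.cast_mul]
      exact close_dis he _ w3 w4 w5

/-- rationality statements for the points of `approxE` -/
lemma finishE (O : E3) (e : Fin 3 → E3) (he : Orthonormal ℝ e) (V : Fin 4 → Fin 3 → ℚ)
    (a b : Fin 4) (hE : ∀ i j, ¬ (i = a ∧ j = b) → ¬ (i = b ∧ j = a) → IsSquare (dsq V i j))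
    (hA : ∀ i j k, IsSquare (her (dsq V i j) (dsq V j k) (dsq V i k))) :
    (∀ i j, ¬ (i = a ∧ j = b) → ¬ (i = b ∧ j = a) →
      ∃ r : ℚ, (r : ℝ) = dist (pt O e V i) (pt O e V j)) ∧
    (∀ i j k, ∃ r : ℚ, (r : ℝ) =
      Real.sqrt ((dist (pt O e V i) (pt O e V j) + dist (pt O e V j) (pt O e V k)
            + dist (pt O e V i) (pt O e V k)) *
        (-dist (pt O e V i) (pt O e V j) + dist (pt O e V j) (pt O e V k)
            + dist (pt O e V i) (pt O e V k)) *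
        (dist (pt O e V i) (pt O e V j) - dist (pt O e V j) (pt O e V k)
            + dist (pt O e V i) (pt O e V k)) *
        (dist (pt O e V i) (pt O e V j) + dist (pt O e V j) (pt O e V k)
            - dist (pt O e V i) (pt O e V k))) / 4) ∧
    (∃ r : ℚ, (r : ℝ) = |Matrix.det (Matrix.of (fun a b : Fin 3 =>
        WithLp.ofLp (pt O e V a.succ - pt O e V 0) b))| / 6) := by
  refine ⟨?_, ?_, ?_⟩
  · intro i j hn1 hn2
    obtain ⟨r, hr⟩ := hE i j hn1 hn2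
    refine ⟨|r|, ?_⟩
    have h := dist_pt O e he V i j
    rw [hr] at h
    have h2 : dist (pt O e V i) (pt O e V j) ^ 2 = |(r:ℝ)| ^ 2 := by
      rw [h, sq_abs]
      push_cast
      ring
    have h3 := (pow_left_inj₀ dist_nonneg (abs_nonneg _) two_ne_zero).mp h2
    rw [h3]
    push_cast
    rfl
  · intro i j k
    obtain ⟨t, ht⟩ := hA i j k
    exact ⟨|t| / 4, sqrt_heron (dist_pt O e he V i j) (dist_pt O e he V j k)
      (dist_pt O e he V i k) ht⟩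
  · have hmat : Matrix.of (fun a b : Fin 3 => WithLp.ofLp (pt O e V a.succ - pt O e V 0) b)
        = Matrix.of (fun a j : Fin 3 => ((V a.succ j - V 0 j : ℚ) : ℝ))
          * Matrix.of (fun j b : Fin 3 => (e j) b) := by
      ext a b
      rw [Matrix.mul_apply, Matrix.of_apply, pt_sub, Fin.sum_univ_three]
      simp
    rw [hmat, Matrix.det_mul, abs_mul, det_frame e he, mul_one]
    refine ⟨|Matrix.det (Matrix.of (fun a j : Fin 3 => V a.succ j - V 0 j))| / 6, ?_⟩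
    push_cast
    congr 3
    ext a j
    simp

theorem mainE (p : Fin 4 → E3) (hp : AffineIndependent ℝ p) (a b : Fin 4) (hab : a ≠ b)
    (ε : ℝ) (hε : 0 < ε) :
    ∃ q : Fin 4 → E3,
      AffineIndependent ℝ q ∧
      (∀ i, dist (p i) (q i) < ε) ∧
      (∀ i j, ¬ (i = a ∧ j = b) → ¬ (i = b ∧ j = a) → ∃ r : ℚ, (r : ℝ) = dist (q i) (q j)) ∧
      (∀ i j k, ∃ r : ℚ, (r : ℝ) =
        Real.sqrt ((dist (q i) (q j) + dist (q j) (q k) + dist (q i) (q k)) *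
          (-dist (q i) (q j) + dist (q j) (q k) + dist (q i) (q k)) *
          (dist (q i) (q j) - dist (q j) (q k) + dist (q i) (q k)) *
          (dist (q i) (q j) + dist (q j) (q k) - dist (q i) (q k))) / 4) ∧
      (∃ r : ℚ, (r : ℝ) =
        |Matrix.det (Matrix.of (fun a b : Fin 3 =>
          WithLp.ofLp (q a.succ - q 0) b))| / 6) := by
  have hperm : ∀ a b : Fin 4, a ≠ b → ∃ σ : Equiv.Perm (Fin 4), σ 2 = a ∧ σ 3 = b := by
    decide
  obtain ⟨σ, hσa, hσb⟩ := hperm a b hab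
  have hσa' : σ.symm a = 2 := by rw [Equiv.symm_apply_eq, hσa]
  have hσb' : σ.symm b = 3 := by rw [Equiv.symm_apply_eq, hσb]
  have hp' : AffineIndependent ℝ (p ∘ σ) := (affineIndependent_equiv σ).mpr hp
  obtain ⟨O, e, he, hV⟩ := approxE hp'
  obtain ⟨ε1, hε1, hball⟩ := Metric.isOpen_iff.mp
    (isOpen_setOfPred_affineIndependent (𝕜 := ℝ) (E := E3) (ι := Fin 4)) p hp
  obtain ⟨V, h1, h2, h3⟩ := hV (min ε ε1) (lt_min hε hε1)
  have hclose : ∀ i, dist (p i) (pt O e (fun i => V (σ.symm i)) i) < min ε ε1 := by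
    intro i
    have := h3 (σ.symm i)
    simpa [pt] using this
  obtain ⟨k1, k2, k3⟩ := finishE O e he (fun i => V (σ.symm i)) a b
    (fun i j hn1 hn2 => h1 (σ.symm i) (σ.symm j)
      (fun hcon => hn1 ⟨by
        have := hcon.1
        rw [← hσa'] at this
        exact σ.symm.injective this, by
        have := hcon.2
        rw [← hσb'] at this
        exact σ.symm.injective this⟩)
      (fun hcon => hn2 ⟨by
        have := hcon.1
        rw [← hσb'] at this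
        exact σ.symm.injective this, by
        have := hcon.2
        rw [← hσa'] at this
        exact σ.symm.injective this⟩))
    (fun i j l => h2 (σ.symm i) (σ.symm j) (σ.symm l))
  refine ⟨pt O e (fun i => V (σ.symm i)), ?_, fun i => lt_of_lt_of_le (hclose i) (min_le_left _ _),
    k1, k2, k3⟩
  apply hball
  rw [Metric.mem_ball, dist_comm, dist_pi_lt_iff hε1]
  exact fun i => lt_of_lt_of_le (hclose i) (min_le_right _ _)

end Pool.Agent.RT10
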