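import Pool.Agent.RT10.Line
import Pool.Agent.RT10.Approx

/-!
# Module RT10/Tri: rational trihedral angles are dense

Three rays with angles `α` (first, second), `β` (first, third) and dihedral angle `φ` at the first ray; the angle `γ`
(second, third) has `cos γ = cos α cos β + sin α sin β cos φ`.  `Ca = cos α, Sa = sin α`, and so on.

Choose (`weak_approx`) rationals `u` close to `Sa/(1+Ca) = tan(α/2)` with `‖u - 3‖ ≤ 1/8` and `t` close to `Sf/(1+Cf)` with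
`‖t - 1‖ ≤ 1/16`, `t ≠ 1`, `t ≠ 0`.  `ca = (1-u²)/(1+u²)`, `sa = 2u/(1+u²)`, `cf = (1-t²)/(1+t²)`, `sf = 2t/(1+t²)`.
2-adically `‖1 - u²‖ = 1/8`, `‖1 + u²‖ = 1/2`, `‖ca‖ = 1/4`, `‖sa‖ = 1`, `‖1 - t²‖ ≤ 1/32`, `‖1+t²‖ = 1/2`, `‖cf‖ ≤ 1/16`,
`‖sf‖ = 1`.  Apply `line_dense` with `S1 = 1/sf`, `S2 = 1/sa`, `κ = (ca/sa) (cf/sf)` (`≠ 0`):
`‖κ‖ ≤ 1/64`, `S1² - S2² = (cf/sf)² - (ca/sa)²` has norm `1/16`, so the right sides of `hI1`, `hI2` are `4/256 = 1/64` and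
the left sides are `≤ 1/4096`.  We get rationals `x` arbitrarily close to any real number (here: close to
`(Cb/Sb)/Sf`) with `x² + S1² = v²`, `(x - κ)² + S2² = w²`; take `v > 0`.
Put `cb = x/v`, `sb = 1/(sf v)`, `cg = ca cb + sa sb cf = (ca x + sa cf/sf)/v`, `sg = sa w / v`.  Then
`cb² + sb² = 1`, `cg² + sg² = 1` (`v² - (ca x + sa y)² = 1 + (sa x - ca y)² = sa² w²` with `y = cf/sf`, since
`v² = x² + 1 + y²`).  Closeness: `cb, sb` are continuous functions of `(x, sf)`, at the limit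
`x = Cb/(Sb Sf)`, `v = √(x² + 1/Sf²) = 1/(Sb Sf)`.
`cg ≠ 0` excludes one value of `x`; `cg² ≠ ca²`: `cg² = ca²` means `(ca x + sa y)² = ca² (x² + 1 + y²)`, i.e.
`2 ca sa x y + sa² y² = ca² (1 + y²)`, a linear equation in `x` with `2 ca sa y ≠ 0`: again one value.  So `x` has
to avoid two values (apply `line_dense` with a smaller interval which avoids them, e.g. move the target `ξ0`
slightly and shrink `ε`).
-/

set_option autoImplicit false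

namespace Pool.Agent.RT10

private theorem half_angle {C S : ℝ} (h : C ^ 2 + S ^ 2 = 1) (hS : 0 < S) (c : ℚ_[2]) (ε δ : ℝ)
    (hε : 0 < ε) (hδ : 0 < δ) :
    ∃ u : ℚ, 0 < u ∧ u ≠ 1 ∧ ‖(u : ℚ_[2]) - c‖ < δ ∧
      |(((1 - u ^ 2) / (1 + u ^ 2) : ℚ) : ℝ) - C| < ε ∧ |((2 * u / (1 + u ^ 2) : ℚ) : ℝ) - S| < ε := by
  have hC : 0 < 1 + C := by nlinarith [sq_nonneg (1 + C), sq_nonneg C]
  have hU : 0 < S / (1 + C) := div_pos hS hC
  have e1 : (1 - (S / (1 + C)) ^ 2) / (1 + (S / (1 + C)) ^ 2) = C := by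
    have hd : (1 + C) ^ 2 + S ^ 2 ≠ 0 := by positivity
    rw [div_pow]
    rw [div_eq_iff (by positivity)]
    field_simp
    linear_combination (-(1 + C)) * h
  have e2 : 2 * (S / (1 + C)) / (1 + (S / (1 + C)) ^ 2) = S := by
    rw [div_pow, div_eq_iff (by positivity)]
    field_simp
    linear_combination (-1) * h
  have hc1 : Continuous fun r : ℝ => (1 - r ^ 2) / (1 + r ^ 2) := by
    refine Continuous.div (by fun_prop) (by fun_prop) fun r => by positivity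
  have hc2 : Continuous fun r : ℝ => 2 * r / (1 + r ^ 2) := by
    refine Continuous.div (by fun_prop) (by fun_prop) fun r => by positivity
  have hev1 : ∀ᶠ r in nhds (S / (1 + C)), |(1 - r ^ 2) / (1 + r ^ 2) - C| < ε := by
    have := hc1.tendsto (S / (1 + C))
    simp only [e1] at this
    have h2 := (Metric.tendsto_nhds.1 this) ε hε
    simpa [Real.dist_eq] using h2
  have hev2 : ∀ᶠ r in nhds (S / (1 + C)), |2 * r / (1 + r ^ 2) - S| < ε := by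
    have := hc2.tendsto (S / (1 + C))
    simp only [e2] at this
    have h2 := (Metric.tendsto_nhds.1 this) ε hε
    simpa [Real.dist_eq] using h2
  have hev3 : ∀ᶠ r in nhds (S / (1 + C)), 0 < r := lt_mem_nhds hU
  have hD : Dense {r : ℝ | ∃ q : ℚ, r = q ∧ ‖(q : ℚ_[2]) - c‖ < δ} := by
    rw [Metric.dense_iff]
    intro x r hr
    obtain ⟨q, hq1, hq2⟩ := weak_approx x c r δ hr hδ
    exact ⟨q, by simpa [Real.dist_eq] using hq1, q, rfl, hq2⟩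
  have hD' : Dense ({r : ℝ | ∃ q : ℚ, r = q ∧ ‖(q : ℚ_[2]) - c‖ < δ} \ {1}) :=
    hD.sdiff_finite (Set.finite_singleton 1)
  obtain ⟨r, ⟨⟨q, hq, hq2⟩, hr1⟩, hr⟩ := hD'.inter_nhds_nonempty (hev1.and (hev2.and hev3))
  obtain ⟨hr2, hr3, hr4⟩ := hr
  subst hq
  refine ⟨q, by exact_mod_cast hr4, ?_, hq2, ?_, ?_⟩
  · rintro rfl
    exact hr1 (by simp)
  · push_cast
    exact hr2
  · push_cast
    exact hr3

private theorem n2 : ‖(2 : ℚ_[2])‖ = 1 / 2 := by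
  have := Padic.norm_p (p := 2)
  rw [one_div]
  exact_mod_cast this

private theorem n3 : ‖(3 : ℚ_[2])‖ = 1 := by
  have := (Padic.norm_natCast_eq_one_iff (p := 2) (n := 3)).2 (by norm_num)
  exact_mod_cast this

private theorem n5 : ‖(5 : ℚ_[2])‖ = 1 := by
  have := (Padic.norm_natCast_eq_one_iff (p := 2) (n := 5)).2 (by norm_num)
  exact_mod_cast this

/-- `‖a + b‖ = ‖a‖` if `‖b‖ < ‖a‖`. -/
private theorem nadd {a b : ℚ_[2]} {r : ℝ} (ha : ‖a‖ = r) (hb : ‖b‖ < r) : ‖a + b‖ = r := by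
  rw [Padic.add_eq_max_of_ne (by rw [ha]; exact hb.ne'), ha]
  exact max_eq_left hb.le

private theorem norm_u {u : ℚ_[2]} (hu : ‖u - 3‖ < 1 / 4) :
    ‖1 - u ^ 2‖ = 1 / 8 ∧ ‖1 + u ^ 2‖ = 1 / 2 ∧ ‖u‖ = 1 := by
  have hu1 : ‖u‖ = 1 := by
    have e : u = 3 + (u - 3) := by ring
    rw [e]
    exact nadd n3 (hu.trans (by norm_num))
  have hle : ‖u - 3‖ ≤ 1 / 8 := by
    have h1 := (Padic.norm_le_pow_iff_norm_lt_pow_add_one (p := 2) (u - 3) (-3)).2 (by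
      norm_num
      linarith)
    norm_num at h1
    linarith
  have h2 : ‖2 * (3 * (u - 3)) + (u - 3) ^ 2‖ ≤ 1 / 16 := by
    refine (Padic.nonarchimedean _ _).trans (max_le ?_ ?_)
    · rw [norm_mul, norm_mul, n2, n3]
      linarith
    · rw [norm_pow]
      calc ‖u - 3‖ ^ 2 ≤ (1 / 8) ^ 2 := pow_le_pow_left₀ (norm_nonneg _) hle 2
        _ ≤ 1 / 16 := by norm_num
  refine ⟨?_, ?_, hu1⟩
  · have e : 1 - u ^ 2 = -(2 : ℚ_[2]) ^ 3 + -(2 * (3 * (u - 3)) + (u - 3) ^ 2) := by ring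
    rw [e]
    refine nadd ?_ ?_
    · rw [norm_neg, norm_pow, n2]
      norm_num
    · rw [norm_neg]
      linarith
  · have e : 1 + u ^ 2 = (2 * 5 : ℚ_[2]) + (2 * (3 * (u - 3)) + (u - 3) ^ 2) := by ring
    rw [e]
    refine nadd ?_ ?_
    · rw [norm_mul, n2, n5]
      norm_num
    · linarith

private theorem norm_t {t : ℚ_[2]} (ht : ‖t - 1‖ < 1 / 8) :
    ‖1 - t ^ 2‖ ≤ 1 / 32 ∧ ‖1 + t ^ 2‖ = 1 / 2 ∧ ‖t‖ = 1 := by
  have ht1 : ‖t‖ = 1 := by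
    have e : t = 1 + (t - 1) := by ring
    rw [e]
    exact nadd norm_one (ht.trans (by norm_num))
  have hle : ‖t - 1‖ ≤ 1 / 16 := by
    have h1 := (Padic.norm_le_pow_iff_norm_lt_pow_add_one (p := 2) (t - 1) (-4)).2 (by
      norm_num
      linarith)
    norm_num at h1
    linarith
  have h2 : ‖2 * (t - 1) + (t - 1) ^ 2‖ ≤ 1 / 32 := by
    refine (Padic.nonarchimedean _ _).trans (max_le ?_ ?_)
    · rw [norm_mul, n2]
      linarith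
    · rw [norm_pow]
      calc ‖t - 1‖ ^ 2 ≤ (1 / 16) ^ 2 := pow_le_pow_left₀ (norm_nonneg _) hle 2
        _ ≤ 1 / 32 := by norm_num
  refine ⟨?_, ?_, ht1⟩
  · have e : 1 - t ^ 2 = -(2 * (t - 1) + (t - 1) ^ 2) := by ring
    rw [e, norm_neg]
    exact h2
  · have e : 1 + t ^ 2 = 2 + (2 * (t - 1) + (t - 1) ^ 2) := by ring
    rw [e]
    exact nadd n2 (by linarith)

/-- The closeness of `cb`, `sb`. -/
private theorem close_b {Cb Sb Sf : ℝ} (hB : Cb ^ 2 + Sb ^ 2 = 1) (hSb : 0 < Sb) (hSf : 0 < Sf)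
    (ε : ℝ) (hε : 0 < ε) :
    ∃ δ > 0, ∀ s x : ℝ, |s - Sf| < δ → |x - Cb / (Sb * Sf)| < δ →
      |x / √(x ^ 2 + (1 / s) ^ 2) - Cb| < ε ∧ |(1 / s) / √(x ^ 2 + (1 / s) ^ 2) - Sb| < ε := by
  have hv : √((Cb / (Sb * Sf)) ^ 2 + (1 / Sf) ^ 2) = 1 / (Sb * Sf) := by
    have : (Cb / (Sb * Sf)) ^ 2 + (1 / Sf) ^ 2 = (1 / (Sb * Sf)) ^ 2 := by
      field_simp
      linear_combination hB
    rw [this, Real.sqrt_sq (by positivity)]
  have hne : √((Cb / (Sb * Sf)) ^ 2 + (1 / Sf) ^ 2) ≠ 0 := by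
    rw [hv]
    positivity
  have hc0 : ContinuousAt (fun p : ℝ × ℝ => √(p.2 ^ 2 + (1 / p.1) ^ 2)) (Sf, Cb / (Sb * Sf)) := by
    refine ContinuousAt.sqrt ?_
    refine ContinuousAt.add (by fun_prop) ?_
    refine ContinuousAt.pow ?_ 2
    exact ContinuousAt.div continuousAt_const continuousAt_fst hSf.ne'
  have hc1 : ContinuousAt (fun p : ℝ × ℝ => p.2 / √(p.2 ^ 2 + (1 / p.1) ^ 2))
      (Sf, Cb / (Sb * Sf)) := ContinuousAt.div continuousAt_snd hc0 hne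
  have hc2 : ContinuousAt (fun p : ℝ × ℝ => (1 / p.1) / √(p.2 ^ 2 + (1 / p.1) ^ 2))
      (Sf, Cb / (Sb * Sf)) :=
    ContinuousAt.div (ContinuousAt.div continuousAt_const continuousAt_fst hSf.ne') hc0 hne
  obtain ⟨δ1, hδ1, h1⟩ := Metric.continuousAt_iff.1 hc1 ε hε
  obtain ⟨δ2, hδ2, h2⟩ := Metric.continuousAt_iff.1 hc2 ε hε
  refine ⟨min δ1 δ2, lt_min hδ1 hδ2, fun s x hs hx => ?_⟩
  have hd : dist (s, x) (Sf, Cb / (Sb * Sf)) < min δ1 δ2 := by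
    rw [Prod.dist_eq]
    exact max_lt (by rw [Real.dist_eq]; exact hs) (by rw [Real.dist_eq]; exact hx)
  have h3 := h1 (hd.trans_le (min_le_left _ _))
  have h4 := h2 (hd.trans_le (min_le_right _ _))
  simp only [hv, Real.dist_eq] at h3 h4
  have e3 : Cb / (Sb * Sf) / (1 / (Sb * Sf)) = Cb := by
    field_simp
  have e4 : 1 / Sf / (1 / (Sb * Sf)) = Sb := by
    field_simp
  rw [e3] at h3
  rw [e4] at h4
  exact ⟨h3, h4⟩

theorem trihedral {Ca Sa Cb Sb Cf Sf : ℝ} (hA : Ca ^ 2 + Sa ^ 2 = 1) (hSa : 0 < Sa)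
    (hB : Cb ^ 2 + Sb ^ 2 = 1) (hSb : 0 < Sb) (hF : Cf ^ 2 + Sf ^ 2 = 1) (hSf : 0 < Sf)
    (ε : ℝ) (hε : 0 < ε) :
    ∃ ca sa cb sb cf sf cg sg : ℚ,
      ca ^ 2 + sa ^ 2 = 1 ∧ cb ^ 2 + sb ^ 2 = 1 ∧ cf ^ 2 + sf ^ 2 = 1 ∧ cg ^ 2 + sg ^ 2 = 1 ∧
      cg = ca * cb + sa * sb * cf ∧
      |(ca : ℝ) - Ca| < ε ∧ |(sa : ℝ) - Sa| < ε ∧ |(cb : ℝ) - Cb| < ε ∧ |(sb : ℝ) - Sb| < ε ∧
      |(cf : ℝ) - Cf| < ε ∧ |(sf : ℝ) - Sf| < ε ∧
      0 < sa ∧ 0 < sb ∧ 0 < sf ∧ sg ≠ 0 ∧ ca ≠ 0 ∧ cg ≠ 0 ∧ cg ^ 2 ≠ ca ^ 2 ∧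
      ‖(ca : ℚ_[2])‖ = 1 / 4 ∧ ‖(cf : ℚ_[2])‖ ≤ 1 / 16 := by
  obtain ⟨δ, hδ, hclose⟩ := close_b hB hSb hSf ε hε
  obtain ⟨u, hu0, -, hu3, hu4, hu5⟩ := half_angle hA hSa 3 ε (1 / 4) hε (by norm_num)
  obtain ⟨t, ht0, ht1, ht3, ht4, ht5⟩ := half_angle hF hSf 1 (min ε δ) (1 / 8)
    (lt_min hε hδ) (by norm_num)
  obtain ⟨nu1, nu2, nu3⟩ := norm_u hu3
  obtain ⟨nt1, nt2, nt3⟩ := norm_t ht3
  obtain ⟨ca, hca⟩ : ∃ ca : ℚ, ca = (1 - u ^ 2) / (1 + u ^ 2) := ⟨_, rfl⟩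
  obtain ⟨sa, hsa⟩ : ∃ sa : ℚ, sa = 2 * u / (1 + u ^ 2) := ⟨_, rfl⟩
  obtain ⟨cf, hcf⟩ : ∃ cf : ℚ, cf = (1 - t ^ 2) / (1 + t ^ 2) := ⟨_, rfl⟩
  obtain ⟨sf, hsf⟩ : ∃ sf : ℚ, sf = 2 * t / (1 + t ^ 2) := ⟨_, rfl⟩
  rw [← hca] at hu4
  rw [← hsa] at hu5
  rw [← hcf] at ht4
  rw [← hsf] at ht5
  have hsa0 : 0 < sa := by rw [hsa]; positivity
  have hsf0 : 0 < sf := by rw [hsf]; positivity
  have hcs : ca ^ 2 + sa ^ 2 = 1 := by
    rw [hca, hsa]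
    have : (1 + u ^ 2) ≠ 0 := by positivity
    field_simp
    ring
  have hfs : cf ^ 2 + sf ^ 2 = 1 := by
    rw [hcf, hsf]
    have : (1 + t ^ 2) ≠ 0 := by positivity
    field_simp
    ring
  have nca : ‖(ca : ℚ_[2])‖ = 1 / 4 := by
    rw [hca]
    push_cast
    rw [norm_div, nu1, nu2]
    norm_num
  have nsa : ‖(sa : ℚ_[2])‖ = 1 := by
    rw [hsa]
    push_cast
    rw [norm_div, norm_mul, nu2, nu3, n2]
    norm_num
  have ncf : ‖(cf : ℚ_[2])‖ ≤ 1 / 16 := by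
    rw [hcf]
    push_cast
    rw [norm_div, nt2]
    linarith
  have nsf : ‖(sf : ℚ_[2])‖ = 1 := by
    rw [hsf]
    push_cast
    rw [norm_div, norm_mul, nt2, nt3, n2]
    norm_num
  have hca0 : ca ≠ 0 := by
    rintro rfl
    norm_num at nca
  have hcf0 : cf ≠ 0 := by
    rw [hcf, div_ne_zero_iff]
    refine ⟨fun h => ht1 ?_, by positivity⟩
    nlinarith
  obtain ⟨y, hy⟩ : ∃ y : ℚ, y = cf / sf := ⟨_, rfl⟩
  obtain ⟨z, hz⟩ : ∃ z : ℚ, z = ca / sa := ⟨_, rfl⟩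
  have hy0 : y ≠ 0 := by rw [hy]; exact div_ne_zero hcf0 hsf0.ne'
  have hz0 : z ≠ 0 := by rw [hz]; exact div_ne_zero hca0 hsa0.ne'
  have ny : ‖(y : ℚ_[2])‖ ≤ 1 / 16 := by
    rw [hy]
    push_cast
    rw [norm_div, nsf, div_one]
    exact ncf
  have nz : ‖(z : ℚ_[2])‖ = 1 / 4 := by
    rw [hz]
    push_cast
    rw [norm_div, nsa, div_one]
    exact nca
  have hyS : (1 / sf) ^ 2 = 1 + y ^ 2 := by
    rw [hy]
    field_simp
    linear_combination (-1) * hfs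
  have hzS : (1 / sa) ^ 2 = 1 + z ^ 2 := by
    rw [hz]
    field_simp
    linear_combination (-1) * hcs
  have nk : ‖((z * y : ℚ) : ℚ_[2])‖ ≤ 1 / 64 := by
    push_cast
    rw [norm_mul, nz]
    linarith
  have nd : ‖(((1 / sf) ^ 2 - (1 / sa) ^ 2 : ℚ) : ℚ_[2])‖ = 1 / 16 := by
    rw [hyS, hzS]
    push_cast
    have e : (1 + (y : ℚ_[2]) ^ 2 - (1 + (z : ℚ_[2]) ^ 2)) = -(z : ℚ_[2]) ^ 2 + (y : ℚ_[2]) ^ 2 := by
      ring
    rw [e]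
    refine nadd ?_ ?_
    · rw [norm_neg, norm_pow, nz]
      norm_num
    · rw [norm_pow]
      calc ‖(y : ℚ_[2])‖ ^ 2 ≤ (1 / 16) ^ 2 := pow_le_pow_left₀ (norm_nonneg _) ny 2
        _ < 1 / 16 := by norm_num
  have nS1 : ‖((1 / sf : ℚ) : ℚ_[2])‖ = 1 := by
    push_cast
    rw [norm_div, nsf, norm_one, div_one]
  have nS2 : ‖((1 / sa : ℚ) : ℚ_[2])‖ = 1 := by
    push_cast
    rw [norm_div, nsa, norm_one, div_one]
  have nk2 : ‖((z * y : ℚ) : ℚ_[2])‖ ^ 2 ≤ 1 / 4096 := by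
    calc ‖((z * y : ℚ) : ℚ_[2])‖ ^ 2 ≤ (1 / 64) ^ 2 := pow_le_pow_left₀ (norm_nonneg _) nk 2
      _ = 1 / 4096 := by norm_num
  have hI1 : ‖((z * y : ℚ) : ℚ_[2])‖ ^ 2 *
      ‖(((z * y) ^ 2 + (1 / sf) ^ 2 + (1 / sa) ^ 2 : ℚ) : ℚ_[2])‖ <
      4 * ‖(((1 / sf) ^ 2 - (1 / sa) ^ 2 : ℚ) : ℚ_[2])‖ ^ 2 := by
    rw [nd]
    have h1 : ‖(((z * y) ^ 2 + (1 / sf) ^ 2 + (1 / sa) ^ 2 : ℚ) : ℚ_[2])‖ ≤ 1 := by
      rw [Rat.cast_add, Rat.cast_add]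
      refine (Padic.nonarchimedean _ _).trans (max_le ?_ ?_)
      · refine (Padic.nonarchimedean _ _).trans (max_le ?_ ?_)
        · rw [Rat.cast_pow, norm_pow]
          linarith
        · rw [Rat.cast_pow, norm_pow, nS1, one_pow]
      · rw [Rat.cast_pow, norm_pow, nS2, one_pow]
    calc _ ≤ (1 / 4096 : ℝ) * 1 := mul_le_mul nk2 h1 (norm_nonneg _) (by norm_num)
      _ < 4 * (1 / 16) ^ 2 := by norm_num
  have hI2 : ‖((z * y : ℚ) : ℚ_[2])‖ ^ 2 * ‖((1 / sf * (1 / sa) : ℚ) : ℚ_[2])‖ <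
      4 * ‖(((1 / sf) ^ 2 - (1 / sa) ^ 2 : ℚ) : ℚ_[2])‖ ^ 2 := by
    rw [nd, Rat.cast_mul (1 / sf) (1 / sa), norm_mul ((1 / sf : ℚ) : ℚ_[2]), nS1, nS2]
    calc _ ≤ (1 / 4096 : ℝ) * (1 * 1) := mul_le_mul_of_nonneg_right nk2 (by norm_num)
      _ < 4 * (1 / 16) ^ 2 := by norm_num
  -- the dense set of good abscissae
  have hD : Dense {r : ℝ | ∃ ξ v w : ℚ, r = ξ ∧ ξ ^ 2 + (1 / sf) ^ 2 = v ^ 2 ∧
      (ξ - z * y) ^ 2 + (1 / sa) ^ 2 = w ^ 2} := by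
    rw [Metric.dense_iff]
    intro x r hr
    obtain ⟨ξ, v, w, h1, h2, h3⟩ := line_dense (S1 := 1 / sf) (S2 := 1 / sa) (κ := z * y)
      (by positivity) (by positivity) (mul_ne_zero hz0 hy0) hI1 hI2 x r hr
    exact ⟨ξ, by simpa [Real.dist_eq] using h1, ξ, v, w, rfl, h2, h3⟩
  have hD' := hD.sdiff_finite ((Set.finite_singleton
    ((-(sa * y) / ca : ℚ) : ℝ)).insert (((ca ^ 2 * (1 + y ^ 2) - sa ^ 2 * y ^ 2) / (2 * ca * sa * y) : ℚ) : ℝ))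
  obtain ⟨r, hr, ⟨x, v0, w, hx, hv0, hw⟩, hr1⟩ := (Metric.dense_iff.1 hD') (Cb / (Sb * Sf)) δ hδ
  rw [Set.mem_insert_iff, Set.mem_singleton_iff, not_or] at hr1
  obtain ⟨hr1, hr2⟩ := hr1
  subst hx
  have hr1' : x ≠ (ca ^ 2 * (1 + y ^ 2) - sa ^ 2 * y ^ 2) / (2 * ca * sa * y) := by
    intro h
    exact hr1 (by exact_mod_cast h)
  have hr2' : x ≠ -(sa * y) / ca := by
    intro h
    exact hr2 (by exact_mod_cast h)
  -- positive v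
  have hvpos : 0 < v0 ^ 2 := by
    rw [← hv0]
    positivity
  obtain ⟨v, hv, hv2⟩ : ∃ v : ℚ, 0 < v ∧ x ^ 2 + (1 / sf) ^ 2 = v ^ 2 := by
    refine ⟨|v0|, abs_pos.2 ?_, by rw [hv0, sq_abs]⟩
    rintro rfl
    norm_num at hvpos
  have hw0 : w ≠ 0 := by
    rintro rfl
    have : 0 < (x - z * y) ^ 2 + (1 / sa) ^ 2 := by positivity
    rw [hw] at this
    norm_num at this
  have hvR : (v : ℝ) = √((x : ℝ) ^ 2 + (1 / (sf : ℝ)) ^ 2) := by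
    have : ((x : ℝ) ^ 2 + (1 / (sf : ℝ)) ^ 2) = (v : ℝ) ^ 2 := by exact_mod_cast hv2
    rw [this, Real.sqrt_sq (by exact_mod_cast hv.le)]
  have hbd := hclose (sf : ℝ) (x : ℝ) (ht5.trans_le (min_le_right _ _))
    (by simpa [Real.dist_eq] using hr)
  rw [← hvR] at hbd
  have hsay : ca = z * sa := by
    rw [hz]
    field_simp
  have hcfy : cf = y * sf := by
    rw [hy]
    field_simp
  refine ⟨ca, sa, x / v, (1 / sf) / v, cf, sf, (ca * x + sa * y) / v, sa * w / v, hcs, ?_, hfs,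
    ?_, ?_, hu4, hu5, ?_, ?_, ht4.trans_le (min_le_left _ _), ht5.trans_le (min_le_left _ _), hsa0,
    by positivity, hsf0, ?_, hca0, ?_, ?_, nca, ncf⟩
  · rw [div_pow, div_pow, ← add_div, hv2]
    exact div_self (by positivity)
  · have h1 : (ca * x + sa * y) ^ 2 + (sa * w) ^ 2 = v ^ 2 := by
      have h2 : (sa * w) ^ 2 = (sa * x - ca * y) ^ 2 + 1 := by
        rw [mul_pow, ← hw, hsay]
        have : sa ^ 2 * (1 / sa) ^ 2 = 1 := by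
          rw [← mul_pow, mul_one_div_cancel hsa0.ne', one_pow]
        linear_combination this
      rw [h2, ← hv2, hyS]
      linear_combination (x ^ 2 + y ^ 2) * hcs
    rw [div_pow, div_pow, ← add_div, h1]
    exact div_self (by positivity)
  · rw [hcfy]
    field_simp
  · push_cast
    exact hbd.1
  · push_cast
    exact hbd.2
  · exact div_ne_zero (mul_ne_zero hsa0.ne' hw0) hv.ne'
  · refine div_ne_zero (fun h => hr2' ?_) hv.ne'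
    rw [eq_div_iff hca0]
    linear_combination h
  · rw [div_pow, ne_eq, div_eq_iff (by positivity), ← hv2, hyS]
    intro h
    apply hr1'
    rw [eq_div_iff (by positivity)]
    linear_combination h

end Pool.Agent.RT10
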