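import Pool.Agent.RT10.Curve

/-!
# Module RT10/Unb: infinitely many rational points imply rational points with large abscissa

Suppose all rational points have `x ≤ M`.  A real point with `x < 0` has `x² + a x + b ≤ 0`, so `x ≥ -a`:
all rational points lie in a compact set of `ℝ × ℝ`.  The set `S` of the (real images of the) rational points with
`y ≠ 0` is infinite (at most three points have `y = 0`), so it has an accumulation point `(u, v)`
(`Set.Infinite.exists_accPt_of_subset_isCompact`), which lies on the real curve.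
* `v ≠ 0`: there are two different points `P1 = (x1, y1)`, `P2 = (x2, y2)` of `S` arbitrarily close to `(u, v)`; their
  ordinates have the sign of `v` and absolute value `≥ |v|/2`, and `x1 ≠ x2` (otherwise `y1 = ± y2`, so `y1 = y2`).
  The chord through `P1` and `(x2, -y2)` has slope of absolute value `≥ |v| / |x2 - x1|`, as large as we want, and
  `x3 = l² - a - x1 - x2 > M` (`onW_chord`).
* `v = 0`: `u (u² + a u + b) = 0`, so `u² ≠ b` (`u = 0`: `b > 0`; otherwise `u² = b` gives `a u = - 2 b`, `a² b = a² u² = 4 b²`,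
  `a² = 4 b`).  The points of `S` near `(u, v)` have `y ≠ 0` small and `(x² - b)²` bounded below, so the abscissa
  `((x² - b) / (2 y))²` of the doubled point (`onW_dbl`) is as large as we want.
-/

set_option autoImplicit false

namespace Pool.Agent.RT10

open Filter Topology in
theorem unbounded {a b : ℚ} (ha : 0 < a) (hb : 0 < b) (hab : a ^ 2 ≠ 4 * b)
    (hinf : {p : ℚ × ℚ | OnW a b p.1 p.2}.Infinite) (M : ℝ) :
    ∃ x y : ℚ, OnW a b x y ∧ M < x := by
  by_contra hcon
  push Not at hcon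
  have haR : (0 : ℝ) < a := by exact_mod_cast ha
  have hbR : (0 : ℝ) < b := by exact_mod_cast hb
  -- the real equation
  have hreal : ∀ x y : ℚ, OnW a b x y →
      (y : ℝ) ^ 2 = (x : ℝ) ^ 3 + a * (x : ℝ) ^ 2 + b * x := by
    intro x y h
    unfold OnW at h
    exact_mod_cast h
  -- points with `y ≠ 0`
  have hfin0 : {p : ℚ × ℚ | OnW a b p.1 p.2 ∧ p.2 = 0}.Finite := by
    have hpoly : (Polynomial.X ^ 3 + Polynomial.C a * Polynomial.X ^ 2 +
        Polynomial.C b * Polynomial.X : Polynomial ℚ) ≠ 0 := by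
      intro h0
      have h1 := congrArg (Polynomial.eval 1) h0
      simp only [Polynomial.eval_add, Polynomial.eval_mul, Polynomial.eval_pow, Polynomial.eval_X,
        Polynomial.eval_C, Polynomial.eval_zero] at h1
      linarith
    have hf := (Polynomial.finite_setOfPred_isRoot hpoly).image (fun x : ℚ => (x, (0 : ℚ)))
    refine hf.subset ?_
    rintro ⟨x, y⟩ ⟨h1, h2⟩
    simp only at h1 h2
    subst h2
    refine ⟨x, ?_, rfl⟩
    change Polynomial.eval x _ = 0
    simp only [Polynomial.eval_add, Polynomial.eval_mul, Polynomial.eval_pow, Polynomial.eval_X,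
      Polynomial.eval_C]
    unfold OnW at h1
    linarith
  have hinf1 : {p : ℚ × ℚ | OnW a b p.1 p.2 ∧ p.2 ≠ 0}.Infinite := by
    intro hf
    refine hinf ((hf.union hfin0).subset ?_)
    intro p hp
    by_cases h0 : p.2 = 0
    · exact Or.inr ⟨hp, h0⟩
    · exact Or.inl ⟨hp, h0⟩
  set S : Set (ℝ × ℝ) := (fun p : ℚ × ℚ => ((p.1 : ℝ), (p.2 : ℝ))) ''
    {p : ℚ × ℚ | OnW a b p.1 p.2 ∧ p.2 ≠ 0} with hS
  have hSinf : S.Infinite := by
    refine hinf1.image (Function.Injective.injOn ?_)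
    intro p q h
    simp only [Prod.mk.injEq, Rat.cast_inj] at h
    exact Prod.ext h.1 h.2
  -- compactness
  set R : ℝ := max (a : ℝ) M with hR
  have hRa : (a : ℝ) ≤ R := le_max_left _ _
  have hRM : M ≤ R := le_max_right _ _
  have hR0 : 0 < R := haR.trans_le hRa
  have hxR : ∀ x y : ℚ, OnW a b x y → |(x : ℝ)| ≤ R := by
    intro x y h
    rw [abs_le]
    constructor
    · by_contra h1
      push Not at h1
      have h2 := hreal x y h
      have hx : (x : ℝ) < 0 := by linarith
      have hxa : (x : ℝ) + a < 0 := by linarith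
      have h3 : 0 < (x : ℝ) * (x + a) + b := by nlinarith
      have h4 : (x : ℝ) * ((x : ℝ) * (x + a) + b) < 0 := mul_neg_of_neg_of_pos hx h3
      nlinarith [sq_nonneg (y : ℝ)]
    · exact (hcon x y h).trans hRM
  set B : ℝ := R ^ 3 + a * R ^ 2 + b * R with hB
  have hB0 : 0 < B := by positivity
  have hyB : ∀ x y : ℚ, OnW a b x y → |(y : ℝ)| ≤ 1 + B := by
    intro x y h
    have h1 := hxR x y h
    have h2 := hreal x y h
    have h3 : (y : ℝ) ^ 2 ≤ B := by
      rw [h2, hB]
      have e1 : (x : ℝ) ^ 3 ≤ R ^ 3 := by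
        calc (x : ℝ) ^ 3 ≤ |(x : ℝ) ^ 3| := le_abs_self _
          _ = |(x : ℝ)| ^ 3 := abs_pow _ _
          _ ≤ R ^ 3 := pow_le_pow_left₀ (abs_nonneg _) h1 3
      have e2 : (x : ℝ) ^ 2 ≤ R ^ 2 := by
        calc (x : ℝ) ^ 2 = |(x : ℝ)| ^ 2 := (sq_abs _).symm
          _ ≤ R ^ 2 := pow_le_pow_left₀ (abs_nonneg _) h1 2
      have e3 : (x : ℝ) ≤ R := (le_abs_self _).trans h1
      have e4 := mul_le_mul_of_nonneg_left e2 haR.le
      have e5 := mul_le_mul_of_nonneg_left e3 hbR.le
      linarith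
    refine abs_le_of_sq_le_sq ?_ (by linarith)
    nlinarith
  set K : Set (ℝ × ℝ) := Set.Icc (-R) R ×ˢ Set.Icc (-(1 + B)) (1 + B) with hK
  have hKc : IsCompact K := isCompact_Icc.prod isCompact_Icc
  have hSK : S ⊆ K := by
    rintro _ ⟨⟨x, y⟩, ⟨h1, _⟩, rfl⟩
    exact ⟨Set.mem_Icc.2 (abs_le.1 (hxR x y h1)), Set.mem_Icc.2 (abs_le.1 (hyB x y h1))⟩
  obtain ⟨⟨u, v⟩, _, hacc⟩ := hSinf.exists_accPt_of_subset_isCompact hKc hSK
  have hnb := accPt_iff_nhds.1 hacc
  -- the accumulation point is on the curve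
  have hcurve : v ^ 2 = u ^ 3 + a * u ^ 2 + b * u := by
    have hcl : IsClosed {q : ℝ × ℝ | q.2 ^ 2 = q.1 ^ 3 + a * q.1 ^ 2 + b * q.1} :=
      isClosed_eq (by fun_prop) (by fun_prop)
    have hsub : S ⊆ {q : ℝ × ℝ | q.2 ^ 2 = q.1 ^ 3 + a * q.1 ^ 2 + b * q.1} := by
      rintro _ ⟨⟨x, y⟩, ⟨h1, _⟩, rfl⟩
      exact hreal x y h1
    have hmem : (u, v) ∈ closure S := mem_closure_iff_clusterPt.2 hacc.clusterPt
    exact hcl.closure_subset_iff.2 hsub hmem
  set T : ℝ := |M| + a + 2 * R + 1 with hT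
  have hT1 : 1 ≤ T := by
    have := abs_nonneg M
    linarith
  have hTM : M < T := by
    have := le_abs_self M
    linarith
  have hTT : T ≤ T ^ 2 := by nlinarith
  by_cases hv : v = 0
  · -- doubling
    subst hv
    have hub : u ^ 2 ≠ b := by
      intro h1
      have hu : u ≠ 0 := by
        intro h0
        rw [h0] at h1
        norm_num at h1
        linarith
      have h2 : u * (u ^ 2 + a * u + b) = 0 := by linarith
      rcases mul_eq_zero.1 h2 with h3 | h3
      · exact hu h3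
      · rw [h1] at h3
        have h4 : (a : ℝ) * u = -(2 * b) := by linarith
        have h5 : (a : ℝ) ^ 2 * b = 4 * b ^ 2 := by
          rw [← h1]
          calc (a : ℝ) ^ 2 * u ^ 2 = (a * u) ^ 2 := by ring
            _ = 4 * (b : ℝ) ^ 2 := by rw [h4]; ring
            _ = 4 * (u ^ 2) ^ 2 := by rw [h1]
        have h6 : (a : ℝ) ^ 2 = 4 * b := by
          have : (b : ℝ) * ((a : ℝ) ^ 2 - 4 * b) = 0 := by linarith
          rcases mul_eq_zero.1 this with h7 | h7
          · exact absurd h7 hbR.ne'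
          · linarith
        exact hab (by exact_mod_cast h6)
    set c : ℝ := |u ^ 2 - b| with hc
    have hc0 : 0 < c := abs_pos.2 (sub_ne_zero.2 hub)
    have hU : {q : ℝ × ℝ | |q.1 ^ 2 - u ^ 2| < c / 2 ∧ |q.2| < c / (4 * T)} ∈ 𝓝 (u, (0 : ℝ)) := by
      have ho1 : IsOpen {q : ℝ × ℝ | |q.1 ^ 2 - u ^ 2| < c / 2} :=
        isOpen_lt (by fun_prop) continuous_const
      have ho2 : IsOpen {q : ℝ × ℝ | |q.2| < c / (4 * T)} :=
        isOpen_lt (by fun_prop) continuous_const
      refine IsOpen.mem_nhds (ho1.inter ho2) ?_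
      constructor
      · change |u ^ 2 - u ^ 2| < c / 2
        rw [sub_self, abs_zero]
        positivity
      · change |(0 : ℝ)| < c / (4 * T)
        rw [abs_zero]
        positivity
    obtain ⟨q, ⟨⟨hq1, hq2⟩, ⟨⟨x, y⟩, ⟨h1, h2⟩, hq⟩⟩, _⟩ := hnb _ hU
    subst hq
    simp only at hq1 hq2 h1 h2
    obtain ⟨y', hy'⟩ := onW_dbl h1 h2
    have h3 := hcon _ _ hy'
    push_cast at h3
    have hy0 : 0 < |(y : ℝ)| := abs_pos.2 (by exact_mod_cast h2)
    have hxb : c / 2 < |(x : ℝ) ^ 2 - b| := by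
      have h4 : |u ^ 2 - b| ≤ |(x : ℝ) ^ 2 - b| + |(x : ℝ) ^ 2 - u ^ 2| := by
        have h5 : u ^ 2 - b = ((x : ℝ) ^ 2 - b) - ((x : ℝ) ^ 2 - u ^ 2) := by ring
        rw [h5]
        exact abs_sub _ _
      rw [← hc] at h4
      linarith
    have hratio : T < |((x : ℝ) ^ 2 - b) / (2 * y)| := by
      rw [abs_div, abs_mul, abs_two, lt_div_iff₀ (by positivity)]
      have h4 : T * (2 * |(y : ℝ)|) < T * (2 * (c / (4 * T))) := by
        have : 2 * |(y : ℝ)| < 2 * (c / (4 * T)) := by linarith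
        exact mul_lt_mul_of_pos_left this (by linarith)
      have h5 : T * (2 * (c / (4 * T))) = c / 2 := by
        have : T ≠ 0 := by linarith
        field_simp
        norm_num
      linarith
    have h4 : T ^ 2 < (((x : ℝ) ^ 2 - b) / (2 * y)) ^ 2 := by
      rw [← sq_abs (((x : ℝ) ^ 2 - b) / (2 * y))]
      exact pow_lt_pow_left₀ hratio (by linarith) (by norm_num)
    linarith
  · -- chords
    have hv0 : 0 < |v| := abs_pos.2 hv
    have hT0 : 0 < T := by linarith
    have hU : {q : ℝ × ℝ | |q.1 - u| < |v| / (2 * T) ∧ |q.2 - v| < |v| / 2} ∈ 𝓝 (u, v) := by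
      have ho1 : IsOpen {q : ℝ × ℝ | |q.1 - u| < |v| / (2 * T)} :=
        isOpen_lt (by fun_prop) continuous_const
      have ho2 : IsOpen {q : ℝ × ℝ | |q.2 - v| < |v| / 2} :=
        isOpen_lt (by fun_prop) continuous_const
      refine IsOpen.mem_nhds (ho1.inter ho2) ?_
      constructor
      · change |u - u| < |v| / (2 * T)
        rw [sub_self, abs_zero]
        positivity
      · change |v - v| < |v| / 2
        rw [sub_self, abs_zero]
        positivity
    obtain ⟨q1, ⟨⟨hq11, hq12⟩, ⟨⟨x1, y1⟩, ⟨h1, _⟩, hq1⟩⟩, hne1⟩ := hnb _ hU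
    have hU2 : {q : ℝ × ℝ | |q.1 - u| < |v| / (2 * T) ∧ |q.2 - v| < |v| / 2} ∩ {q1}ᶜ ∈
        𝓝 (u, v) := by
      refine inter_mem hU ?_
      exact isOpen_compl_singleton.mem_nhds (by
        intro h0
        exact hne1 h0.symm)
    obtain ⟨q2, ⟨⟨⟨hq21, hq22⟩, hq23⟩, ⟨⟨x2, y2⟩, ⟨h2, _⟩, hq2⟩⟩, _⟩ := hnb _ hU2
    subst hq1 hq2
    simp only at hq11 hq12 hq21 hq22 h1 h2
    have hsum : |v| < |(y1 : ℝ) + y2| := by
      have h3 : |2 * v| ≤ |(y1 : ℝ) + y2| + (|(y1 : ℝ) - v| + |(y2 : ℝ) - v|) := by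
        have h4 : 2 * v = ((y1 : ℝ) + y2) - (((y1 : ℝ) - v) + ((y2 : ℝ) - v)) := by ring
        rw [h4]
        exact (abs_sub _ _).trans (by
          have := abs_add_le ((y1 : ℝ) - v) ((y2 : ℝ) - v)
          linarith)
      rw [abs_mul, abs_two] at h3
      linarith
    have hx : x1 ≠ x2 := by
      intro h0
      subst h0
      have h3 := hreal _ _ h1
      have h4 := hreal _ _ h2
      have h5 : ((y1 : ℝ) - y2) * (y1 + y2) = 0 := by linarith
      rcases mul_eq_zero.1 h5 with h6 | h6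
      · apply hq23
        change ((x1 : ℝ), (y2 : ℝ)) = ((x1 : ℝ), (y1 : ℝ))
        rw [sub_eq_zero.1 h6]
      · rw [h6, abs_zero] at hsum
        linarith
    have h3 := onW_chord h1 (onW_neg h2) hx rfl rfl
    have h4 := hcon _ _ h3
    push_cast at h4
    have hxx : ((x2 : ℝ) - x1) ≠ 0 := by
      intro h0
      apply hx
      have : (x2 : ℝ) = x1 := by linarith
      exact_mod_cast this.symm
    have hdx : |(x2 : ℝ) - x1| < |v| / T := by
      have h5 : (x2 : ℝ) - x1 = ((x2 : ℝ) - u) - ((x1 : ℝ) - u) := by ring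
      rw [h5]
      refine (abs_sub _ _).trans_lt ?_
      have h6 : |v| / T = |v| / (2 * T) + |v| / (2 * T) := by
        field_simp
        norm_num
      linarith
    have hl : T < |(-(y2 : ℝ) - y1) / (x2 - x1)| := by
      rw [abs_div, lt_div_iff₀ (abs_pos.2 hxx)]
      have h5 : T * |(x2 : ℝ) - x1| < T * (|v| / T) := mul_lt_mul_of_pos_left hdx hT0
      have h6 : T * (|v| / T) = |v| := by field_simp
      have h7 : |(-(y2 : ℝ) - y1)| = |(y1 : ℝ) + y2| := by
        rw [← abs_neg]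
        congr 1
        ring
      rw [h7]
      linarith
    have h5 : T ^ 2 < ((-(y2 : ℝ) - y1) / (x2 - x1)) ^ 2 := by
      rw [← sq_abs ((-(y2 : ℝ) - y1) / (x2 - x1))]
      exact pow_lt_pow_left₀ hl (by linarith) (by norm_num)
    have h6 := (le_abs_self _).trans (hxR _ _ h1)
    have h7 := (le_abs_self _).trans (hxR _ _ h2)
    have h8 := le_abs_self M
    linarith

end Pool.Agent.RT10
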